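import Mathlib

/-!
# Compact surfaces with boundary in a Euclidean space, and minimality

All the definitions used in the statement of the hand-in for `MP_41af65_gt`.
-/

namespace Pool.Agent.Helper74.Iso

open Module InnerProductSpace
open scoped ContDiff

variable {E : Type*} [NormedAddCommGroup E] [InnerProductSpace ℝ E] [FiniteDimensional ℝ E]

/-- `M` is a compact smooth surface with boundary `B` in the Euclidean space `E`, in the usual
sense of slice charts: `M` is compact, `B` is a closed subset of `M`, and each point `p` of `M` has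
an open neighbourhood `Φ.source` in `E` with a smooth diffeomorphism `Φ` onto an open subset
`Φ.target` of `E` such that, for some 2-dimensional linear subspace `K` of `E`,
* if `p ∉ B`, then `Φ` carries the part of `M` in `Φ.source` to the part of `K` in `Φ.target`;
* if `p ∈ B`, then, for some nonzero `e ∈ K`, `Φ` carries the part of `M` in `Φ.source` to the part
  of the half-plane `{v ∈ K | 0 ≤ ⟪e, v⟫}` in `Φ.target`, and the part of `B` in `Φ.source` to the
  part of the line `{v ∈ K | ⟪e, v⟫ = 0}` in `Φ.target`. -/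
structure IsCompactSurfaceWithBoundary (M B : Set E) : Prop where
  isCompact : IsCompact M
  isClosed_boundary : IsClosed B
  boundary_subset : B ⊆ M
  interior_point : ∀ p ∈ M \ B, ∃ (Φ : OpenPartialHomeomorph E E) (K : Submodule ℝ E),
    ContDiffOn ℝ ∞ Φ Φ.source ∧ ContDiffOn ℝ ∞ Φ.symm Φ.target ∧ p ∈ Φ.source ∧
    finrank ℝ K = 2 ∧ ∀ x ∈ Φ.source, x ∈ M ↔ Φ x ∈ K
  boundary_point : ∀ p ∈ B, ∃ (Φ : OpenPartialHomeomorph E E) (K : Submodule ℝ E) (e : E),
    ContDiffOn ℝ ∞ Φ Φ.source ∧ ContDiffOn ℝ ∞ Φ.symm Φ.target ∧ p ∈ Φ.source ∧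
    finrank ℝ K = 2 ∧ e ∈ K ∧ e ≠ 0 ∧
    (∀ x ∈ Φ.source, x ∈ M ↔ Φ x ∈ K ∧ 0 ≤ ⟪e, Φ x⟫_ℝ) ∧
    (∀ x ∈ Φ.source, x ∈ B ↔ Φ x ∈ K ∧ ⟪e, Φ x⟫_ℝ = 0)

/-- The tangent plane of `M` at `x`: the linear span of the tangent cone of `M` at `x`. -/
def tangentPlane (M : Set E) (x : E) : Submodule ℝ E :=
  Submodule.span ℝ (tangentConeAt ℝ M x)

/-- The divergence along the plane `T` of a vector field whose derivative at the point is `A`:
the trace of the orthogonal projection onto `T` composed with `A`, that is `∑ i, ⟪e i, A (e i)⟫`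
for an orthonormal basis `e` of `T`. -/
noncomputable def tdiv (T : Submodule ℝ E) (A : E →L[ℝ] E) : ℝ :=
  LinearMap.trace ℝ E ((T.starProjection ∘L A : E →L[ℝ] E) : E →ₗ[ℝ] E)

end Pool.Agent.Helper74.Iso
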