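import Mathlib
import Pool.Agent.Helper74.Iso.Defs

/-!
# Slice charts: the tangent plane and its continuity
-/

set_option linter.unusedSectionVars false

namespace Pool.Agent.Helper74.Iso

open InnerProductSpace Module MeasureTheory Set Filter Topology
open scoped ContDiff ENNReal NNReal

variable {E : Type*} [NormedAddCommGroup E] [InnerProductSpace ℝ E] [FiniteDimensional ℝ E]

section projection

variable {F : Type*} [NormedAddCommGroup F] [InnerProductSpace ℝ F] [FiniteDimensional ℝ F]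

/-- the projection onto the range of `A` -/
noncomputable def projOf (A : F →L[ℝ] E) : E →L[ℝ] E :=
  A ∘L (Ring.inverse (A.adjoint ∘L A)) ∘L A.adjoint

lemma isUnit_adjoint_comp {A : F →L[ℝ] E} (hA : Function.Injective A) :
    IsUnit (A.adjoint ∘L A) := by
  rw [ContinuousLinearMap.isUnit_iff_isUnit_toLinearMap, LinearMap.isUnit_iff_ker_eq_bot,
    LinearMap.ker_eq_bot']
  intro w hw
  have h1 : A.adjoint (A w) = 0 := hw
  have h2 : ⟪A w, A w⟫_ℝ = 0 := by
    rw [← ContinuousLinearMap.adjoint_inner_left, h1, inner_zero_left]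
  have h3 : A w = 0 := inner_self_eq_zero.1 h2
  exact hA (by rw [h3, map_zero])

lemma starProjection_range {A : F →L[ℝ] E} (hA : Function.Injective A) :
    (LinearMap.range (A : F →ₗ[ℝ] E)).starProjection = projOf A := by
  ext v
  apply Submodule.eq_starProjection_of_mem_of_inner_eq_zero
  · exact ⟨_, rfl⟩
  · rintro _ ⟨w, rfl⟩
    have h1 : A.adjoint (projOf A v) = A.adjoint v := by
      have h2 : (A.adjoint ∘L A) * Ring.inverse (A.adjoint ∘L A) = 1 :=
        Ring.mul_inverse_cancel _ (isUnit_adjoint_comp hA)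
      have h3 := congrArg (fun L : F →L[ℝ] F => L (A.adjoint v)) h2
      exact h3
    have h4 : ⟪v - projOf A v, A w⟫_ℝ = ⟪A.adjoint (v - projOf A v), w⟫_ℝ :=
      (ContinuousLinearMap.adjoint_inner_left _ _ _).symm
    calc _ = ⟪v - projOf A v, A w⟫_ℝ := rfl
      _ = 0 := by rw [h4, map_sub, h1, sub_self, inner_zero_left]

lemma continuousAt_projOf {A : F →L[ℝ] E} (hA : Function.Injective A) :
    ContinuousAt (projOf : (F →L[ℝ] E) → (E →L[ℝ] E)) A := by
  have h1 : Continuous (fun A : F →L[ℝ] E => A.adjoint) :=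
    (ContinuousLinearMap.adjoint (𝕜 := ℝ) (E := F) (F := E)).continuous
  have h2 : Continuous (fun A : F →L[ℝ] E => A.adjoint ∘L A) := h1.clm_comp continuous_id
  obtain ⟨u, hu⟩ := isUnit_adjoint_comp hA
  have h3 : ContinuousAt (fun A : F →L[ℝ] E => Ring.inverse (A.adjoint ∘L A)) A := by
    apply ContinuousAt.comp (g := Ring.inverse) (f := fun A : F →L[ℝ] E => A.adjoint ∘L A)
    · rw [← hu]; exact NormedRing.inverse_continuousAt u
    · exact h2.continuousAt
  exact continuousAt_id.clm_comp (h3.clm_comp h1.continuousAt)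

end projection

variable {Φ : OpenPartialHomeomorph E E}

lemma differentiableAt_chart (h1 : ContDiffOn ℝ ∞ Φ Φ.source) {x : E} (hx : x ∈ Φ.source) :
    DifferentiableAt ℝ Φ x :=
  (h1.contDiffAt (Φ.open_source.mem_nhds hx)).differentiableAt (by simp)

lemma differentiableAt_symm (h2 : ContDiffOn ℝ ∞ Φ.symm Φ.target) {x : E} (hx : x ∈ Φ.source) :
    DifferentiableAt ℝ Φ.symm (Φ x) :=
  (h2.contDiffAt (Φ.open_target.mem_nhds (Φ.map_source hx))).differentiableAt (by simp)

lemma fderiv_comp_symm (h1 : ContDiffOn ℝ ∞ Φ Φ.source) (h2 : ContDiffOn ℝ ∞ Φ.symm Φ.target)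
    {x : E} (hx : x ∈ Φ.source) (v : E) :
    fderiv ℝ Φ x (fderiv ℝ Φ.symm (Φ x) v) = v := by
  have hcomp : HasFDerivAt (Φ ∘ Φ.symm) ((fderiv ℝ Φ x) ∘L (fderiv ℝ Φ.symm (Φ x))) (Φ x) := by
    apply HasFDerivAt.comp
    · rw [Φ.left_inv hx]; exact (differentiableAt_chart h1 hx).hasFDerivAt
    · exact (differentiableAt_symm h2 hx).hasFDerivAt
  have heq : (Φ ∘ Φ.symm) =ᶠ[𝓝 (Φ x)] id := by
    filter_upwards [Φ.open_target.mem_nhds (Φ.map_source hx)] with y hy
    exact Φ.right_inv hy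
  have := hcomp.unique ((hasFDerivAt_id _).congr_of_eventuallyEq heq)
  exact congrArg (fun L : E →L[ℝ] E => L v) this

lemma fderiv_symm_comp (h1 : ContDiffOn ℝ ∞ Φ Φ.source) (h2 : ContDiffOn ℝ ∞ Φ.symm Φ.target)
    {x : E} (hx : x ∈ Φ.source) (v : E) :
    fderiv ℝ Φ.symm (Φ x) (fderiv ℝ Φ x v) = v := by
  have hcomp : HasFDerivAt (Φ.symm ∘ Φ) ((fderiv ℝ Φ.symm (Φ x)) ∘L (fderiv ℝ Φ x)) x := by
    apply HasFDerivAt.comp
    · exact (differentiableAt_symm h2 hx).hasFDerivAt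
    · exact (differentiableAt_chart h1 hx).hasFDerivAt
  have heq : (Φ.symm ∘ Φ) =ᶠ[𝓝 x] id := by
    filter_upwards [Φ.open_source.mem_nhds hx] with y hy
    exact Φ.left_inv hy
  have := hcomp.unique ((hasFDerivAt_id _).congr_of_eventuallyEq heq)
  exact congrArg (fun L : E →L[ℝ] E => L v) this

/-- the derivative of the parametrisation -/
noncomputable def param (Φ : OpenPartialHomeomorph E E) (K : Submodule ℝ E) (x : E) : K →L[ℝ] E :=
  (fderiv ℝ Φ.symm (Φ x)) ∘L K.subtypeL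

lemma param_injective (h1 : ContDiffOn ℝ ∞ Φ Φ.source) (h2 : ContDiffOn ℝ ∞ Φ.symm Φ.target)
    (K : Submodule ℝ E) {x : E} (hx : x ∈ Φ.source) : Function.Injective (param Φ K x) := by
  intro v w h
  have h3 := congrArg (fderiv ℝ Φ x) (show fderiv ℝ Φ.symm (Φ x) v = fderiv ℝ Φ.symm (Φ x) w from h)
  rw [fderiv_comp_symm h1 h2 hx, fderiv_comp_symm h1 h2 hx] at h3
  exact Subtype.ext h3

lemma tangentConeAt_submodule {K : Submodule ℝ E} {x v : E} (hx : x ∈ K)
    (hv : v ∈ tangentConeAt ℝ (K : Set E) x) : v ∈ K := by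
  obtain ⟨ι, l, hl, c, d, hd₀, hds, hcd⟩ := exists_fun_of_mem_tangentConeAt hv
  have hcl : IsClosed (K : Set E) := K.closed_of_finiteDimensional
  refine hcl.mem_of_tendsto hcd ?_
  filter_upwards [hds] with n hn
  apply K.smul_mem
  have h := K.sub_mem hn hx
  simpa using h

lemma tangentPlane_eq (h1 : ContDiffOn ℝ ∞ Φ Φ.source) (h2 : ContDiffOn ℝ ∞ Φ.symm Φ.target)
    {M : Set E} {K : Submodule ℝ E} (hM : ∀ x ∈ Φ.source, x ∈ M ↔ Φ x ∈ K) {x : E}
    (hx : x ∈ Φ.source) (hxM : x ∈ M) :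
    tangentPlane M x = LinearMap.range (param Φ K x : K →ₗ[ℝ] E) := by
  have hxK : Φ x ∈ K := (hM x hx).1 hxM
  apply le_antisymm
  · rw [tangentPlane, Submodule.span_le]
    intro v hv
    rw [← tangentConeAt_inter_nhds (Φ.open_source.mem_nhds hx)] at hv
    have hd : HasFDerivWithinAt Φ (fderiv ℝ Φ x) (M ∩ Φ.source) x :=
      (differentiableAt_chart h1 hx).hasFDerivAt.hasFDerivWithinAt
    have h3 := hd.mapsTo_tangent_cone hv
    have h4 : fderiv ℝ Φ x v ∈ K := by
      refine tangentConeAt_submodule hxK (tangentConeAt_mono ?_ h3)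
      rintro _ ⟨y, ⟨hyM, hyS⟩, rfl⟩
      exact (hM y hyS).1 hyM
    refine ⟨⟨fderiv ℝ Φ x v, h4⟩, ?_⟩
    exact fderiv_symm_comp h1 h2 hx v
  · rintro _ ⟨k, rfl⟩
    apply Submodule.subset_span
    have hk : (k : E) ∈ tangentConeAt ℝ ((K : Set E) ∩ Φ.target) (Φ x) := by
      rw [tangentConeAt_inter_nhds (Φ.open_target.mem_nhds (Φ.map_source hx))]
      refine mem_tangentConeAt_of_add_smul_mem (l := 𝓝[≠] (0 : ℝ)) (c := id) tendsto_id ?_
      filter_upwards with t
      exact K.add_mem hxK (K.smul_mem _ k.2)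
    have hd : HasFDerivWithinAt Φ.symm (fderiv ℝ Φ.symm (Φ x)) ((K : Set E) ∩ Φ.target) (Φ x) :=
      (differentiableAt_symm h2 hx).hasFDerivAt.hasFDerivWithinAt
    have h3 := hd.mapsTo_tangent_cone hk
    rw [Φ.left_inv hx] at h3
    refine tangentConeAt_mono ?_ h3
    rintro _ ⟨y, ⟨hyK, hyT⟩, rfl⟩
    rw [hM _ (Φ.map_target hyT), Φ.right_inv hyT]
    exact hyK

lemma finrank_tangentPlane (h1 : ContDiffOn ℝ ∞ Φ Φ.source)
    (h2 : ContDiffOn ℝ ∞ Φ.symm Φ.target)
    {M : Set E} {K : Submodule ℝ E} (hM : ∀ x ∈ Φ.source, x ∈ M ↔ Φ x ∈ K) {x : E}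
    (hx : x ∈ Φ.source) (hxM : x ∈ M) :
    finrank ℝ (tangentPlane M x) = finrank ℝ K := by
  rw [tangentPlane_eq h1 h2 hM hx hxM]
  exact LinearMap.finrank_range_of_inj (param_injective h1 h2 K hx)

lemma continuousOn_param (h2 : ContDiffOn ℝ ∞ Φ.symm Φ.target) (K : Submodule ℝ E) :
    ContinuousOn (param Φ K) Φ.source := by
  have h3 : ContinuousOn (fderiv ℝ Φ.symm) Φ.target :=
    h2.continuousOn_fderiv_of_isOpen Φ.open_target (by simp)
  have h4 : ContinuousOn (fun x => fderiv ℝ Φ.symm (Φ x)) Φ.source :=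
    h3.comp Φ.continuousOn Φ.mapsTo
  exact h4.clm_comp continuousOn_const

lemma continuousWithinAt_proj (h1 : ContDiffOn ℝ ∞ Φ Φ.source)
    (h2 : ContDiffOn ℝ ∞ Φ.symm Φ.target)
    {M : Set E} {K : Submodule ℝ E} (hM : ∀ x ∈ Φ.source, x ∈ M ↔ Φ x ∈ K) {p : E}
    (hp : p ∈ Φ.source) (hpM : p ∈ M) :
    ContinuousWithinAt (fun x => (tangentPlane M x).starProjection) M p := by
  have h3 : ContinuousAt (fun x => projOf (param Φ K x)) p := by
    apply ContinuousAt.comp (g := projOf) (f := param Φ K)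
    · exact continuousAt_projOf (param_injective h1 h2 K hp)
    · exact (continuousOn_param h2 K).continuousAt (Φ.open_source.mem_nhds hp)
  refine h3.continuousWithinAt.congr_of_eventuallyEq ?_ ?_
  · filter_upwards [self_mem_nhdsWithin, mem_nhdsWithin_of_mem_nhds (Φ.open_source.mem_nhds hp)]
      with x hxM hx
    rw [tangentPlane_eq h1 h2 hM hx hxM, starProjection_range (param_injective h1 h2 K hx)]
  · rw [tangentPlane_eq h1 h2 hM hp hpM, starProjection_range (param_injective h1 h2 K hp)]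

end Pool.Agent.Helper74.Iso
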