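import Mathlib
import Pool.Agent.Helper74.Iso.Charts

/-!
# Slice charts: density and local finiteness of the area
-/

set_option linter.unusedSectionVars false

namespace Pool.Agent.Helper74.Iso

open InnerProductSpace Module MeasureTheory Set Filter Topology
open scoped ContDiff ENNReal NNReal

variable {E : Type*} [NormedAddCommGroup E] [InnerProductSpace ℝ E] [FiniteDimensional ℝ E]
  [MeasurableSpace E] [BorelSpace E]

lemma muHE_image_le {X Y : Type*} [EMetricSpace X] [MeasurableSpace X] [BorelSpace X]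
    [EMetricSpace Y] [MeasurableSpace Y] [BorelSpace Y] {f : X → Y} {K : ℝ≥0} {s : Set X}
    (h : LipschitzOnWith K f s) (d : ℕ) : μHE[d] (f '' s) ≤ (K : ℝ≥0∞) ^ d * μHE[d] s := by
  have h1 := h.hausdorffMeasure_image_le (d := (d : ℝ)) (Nat.cast_nonneg d)
  rw [Measure.euclideanHausdorffMeasure_def, Measure.euclideanHausdorffMeasure_def,
    Measure.smul_apply, Measure.smul_apply, ENNReal.smul_def, ENNReal.smul_def, smul_eq_mul,
    smul_eq_mul, mul_left_comm]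
  gcongr
  simpa using h1

lemma muHE_eq_volume (T : Submodule ℝ E) (hT : finrank ℝ T = 2) :
    (μHE[2] : Measure T) = volume := by
  rw [← InnerProductSpace.euclideanHausdorffMeasure_eq_volume (V := T), hT]

lemma muHE_ball (T : Submodule ℝ E) (hT : finrank ℝ T = 2) (z : T) {r : ℝ} (hr : 0 ≤ r) :
    (μHE[2] : Measure T) (Metric.ball z r) = ENNReal.ofReal (Real.pi * r ^ 2) := by
  have : Nontrivial T := Module.nontrivial_of_finrank_pos (R := ℝ) (by rw [hT]; norm_num)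
  rw [muHE_eq_volume T hT, InnerProductSpace.volume_ball_of_dim_even (k := 1) (by simpa using hT),
    hT, ← ENNReal.ofReal_pow hr, ← ENNReal.ofReal_mul (by positivity)]
  congr 1
  simp
  ring

variable {Φ : OpenPartialHomeomorph E E}

lemma finite_near (h2 : ContDiffOn ℝ ∞ Φ.symm Φ.target)
    {M : Set E} {K : Submodule ℝ E} (hK : finrank ℝ K = 2)
    (hM : ∀ x ∈ Φ.source, x ∈ M → Φ x ∈ K) {p : E} (hp : p ∈ Φ.source) :
    ∃ U ∈ 𝓝 p, μHE[2] (M ∩ U) < ⊤ := by
  have hc : ContDiffAt ℝ 1 Φ.symm (Φ p) :=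
    (h2.contDiffAt (Φ.open_target.mem_nhds (Φ.map_source hp))).of_le (by simp)
  obtain ⟨C, t, ht, hL⟩ := hc.exists_lipschitzOnWith
  set B := Metric.closedBall (Φ p) 1 with hB
  have hB1 : B ∈ 𝓝 (Φ p) := Metric.closedBall_mem_nhds _ one_pos
  refine ⟨Φ.source ∩ Φ ⁻¹' (t ∩ B), ?_, ?_⟩
  · refine inter_mem (Φ.open_source.mem_nhds hp) ?_
    exact (Φ.continuousAt hp) (inter_mem ht hB1)
  · have h3 : M ∩ (Φ.source ∩ Φ ⁻¹' (t ∩ B)) ⊆ Φ.symm '' ((K : Set E) ∩ (t ∩ B)) := by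
      rintro x ⟨hxM, hxS, hxt⟩
      exact ⟨Φ x, ⟨hM x hxS hxM, hxt⟩, Φ.left_inv hxS⟩
    have h4 : μHE[2] ((K : Set E) ∩ (t ∩ B)) < ⊤ := by
      have h5 : (K : Set E) ∩ (t ∩ B) ⊆ Subtype.val '' ((Subtype.val : K → E) ⁻¹' B) := by
        rintro x ⟨hxK, -, hxB⟩
        exact ⟨⟨x, hxK⟩, hxB, rfl⟩
      refine lt_of_le_of_lt (measure_mono h5) ?_
      have h6 : Isometry (Subtype.val : K → E) := isometry_subtype_coe
      rw [h6.euclideanHausdorffMeasure_image, muHE_eq_volume K hK]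
      apply Bornology.IsBounded.measure_lt_top
      have h7 : Bornology.IsBounded B := Metric.isBounded_closedBall
      obtain ⟨R, hR⟩ := h7.subset_closedBall (0 : E)
      refine (Metric.isBounded_closedBall (x := (0 : K)) (r := R)).subset ?_
      intro k hk
      have := hR hk
      rw [mem_closedBall_zero_iff] at this ⊢
      exact this
    calc μHE[2] (M ∩ (Φ.source ∩ Φ ⁻¹' (t ∩ B))) ≤ μHE[2] (Φ.symm '' ((K : Set E) ∩ (t ∩ B))) :=
          measure_mono h3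
      _ ≤ (C : ℝ≥0∞) ^ 2 * μHE[2] ((K : Set E) ∩ (t ∩ B)) :=
          muHE_image_le (hL.mono (fun x hx => hx.2.1)) 2
      _ < ⊤ := ENNReal.mul_lt_top (ENNReal.pow_lt_top ENNReal.coe_lt_top) h4

lemma density_ge (h1 : ContDiffOn ℝ ∞ Φ Φ.source) (h2 : ContDiffOn ℝ ∞ Φ.symm Φ.target)
    {M : Set E} {K : Submodule ℝ E} (hK : finrank ℝ K = 2)
    (hM : ∀ x ∈ Φ.source, x ∈ M ↔ Φ x ∈ K) {p : E}
    (hp : p ∈ Φ.source) (hpM : p ∈ M) {δ : ℝ} (hδ : 0 < δ) (hδ1 : δ < 1) :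
    ∀ᶠ r in 𝓝[>] (0 : ℝ), ENNReal.ofReal ((1 - δ) * (Real.pi * r ^ 2)) ≤
      μHE[2] (M ∩ Metric.ball p r) := by
  set A := param Φ K p with hA
  have hAinj : Function.Injective A := param_injective h1 h2 K hp
  set T : Submodule ℝ E := LinearMap.range (A : K →ₗ[ℝ] E) with hT
  have hTrank : finrank ℝ T = 2 := by
    rw [← hK]; exact LinearMap.finrank_range_of_inj hAinj
  let A0 : K ≃L[ℝ] T := (LinearEquiv.ofInjective (A : K →ₗ[ℝ] E) hAinj).toContinuousLinearEquiv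
  have hA0 : ∀ k : K, (A0 k : E) = A k := fun k => rfl
  let P : E →L[ℝ] T := T.orthogonalProjectionOnto
  have hPT : ∀ z : T, P z = z := fun z => Submodule.orthogonalProjectionOnto_mem_subspace_eq_self z
  have hpK : Φ p ∈ K := (hM p hp).1 hpM
  let k0 : K := ⟨Φ p, hpK⟩
  let g : K → T := fun k => P (Φ.symm k)
  have hs : HasStrictFDerivAt Φ.symm (fderiv ℝ Φ.symm (Φ p)) (Φ p) :=
    (h2.contDiffAt (Φ.open_target.mem_nhds (Φ.map_source hp))).hasStrictFDerivAt (by simp)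
  have hs2 : HasStrictFDerivAt (fun k : K => Φ.symm (k : E)) A k0 :=
    HasStrictFDerivAt.comp (g := Φ.symm) (f := K.subtypeL) k0 hs K.subtypeL.hasStrictFDerivAt
  have hg : HasStrictFDerivAt g (A0 : K →L[ℝ] T) k0 := by
    have h3 := P.hasStrictFDerivAt.comp k0 hs2
    refine h3.congr_fderiv ?_
    ext k
    change (P (A k) : E) = A0 k
    rw [← hA0 k, hPT]
  set h0 := hg.localInverse g A0 k0 with hh0
  set z0 : T := g k0 with hz0
  have hh0z : h0 z0 = k0 := hg.localInverse_apply_image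
  have hinv : HasStrictFDerivAt h0 (A0.symm : T →L[ℝ] K) z0 := hg.to_localInverse
  have hh : HasFDerivAt (fun z : T => Φ.symm (h0 z : E)) T.subtypeL z0 := by
    have h3 : HasStrictFDerivAt (fun k : K => Φ.symm (k : E)) A (h0 z0) := by rw [hh0z]; exact hs2
    have h4 := (h3.comp z0 hinv).hasFDerivAt
    refine h4.congr_fderiv ?_
    ext z
    change A (A0.symm z) = z
    rw [← hA0, A0.apply_symm_apply]
  have hval : Φ.symm (h0 z0 : E) = p := by
    rw [hh0z]; exact Φ.left_inv hp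
  have ev1 : ∀ᶠ z in 𝓝 z0, ‖Φ.symm (h0 z : E) - p - ((z : E) - z0)‖ ≤ δ / 2 * ‖z - z0‖ := by
    have h3 := hh.isLittleO.def (show 0 < δ / 2 by positivity)
    filter_upwards [h3] with z hz
    rw [hval] at hz
    exact hz
  have ev2 : ∀ᶠ z in 𝓝 z0, g (h0 z) = z := hg.eventually_right_inverse
  have ev3 : ∀ᶠ z in 𝓝 z0, (h0 z : E) ∈ Φ.target := by
    have h3 : ContinuousAt (fun z => (h0 z : E)) z0 :=
      continuous_subtype_val.continuousAt.comp hinv.hasFDerivAt.continuousAt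
    apply h3
    have h4 : (h0 z0 : E) ∈ Φ.target := by rw [hh0z]; exact Φ.map_source hp
    exact Φ.open_target.mem_nhds h4
  obtain ⟨ρ, hρ, hall⟩ := Metric.eventually_nhds_iff_ball.1 (ev1.and (ev2.and ev3))
  have hmem : Ioo (0 : ℝ) ρ ∈ 𝓝[>] (0 : ℝ) := Ioo_mem_nhdsGT hρ
  filter_upwards [hmem] with r hr
  have hr0 := hr.1
  have hsub : Metric.ball z0 (r / (1 + δ / 2)) ⊆ P '' (M ∩ Metric.ball p r) := by
    intro z hz
    have hz' : ‖z - z0‖ < r / (1 + δ / 2) := by rwa [Metric.mem_ball, dist_eq_norm] at hz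
    have hle : r / (1 + δ / 2) ≤ r := div_le_self hr0.le (by linarith)
    obtain ⟨e1, e2, e3⟩ := hall z (by
      rw [Metric.mem_ball, dist_eq_norm]; linarith [hr.2])
    refine ⟨Φ.symm (h0 z : E), ⟨?_, ?_⟩, e2⟩
    · rw [hM _ (Φ.map_target e3), Φ.right_inv e3]
      exact (h0 z).2
    · rw [Metric.mem_ball, dist_eq_norm]
      have h5 : ‖(z : E) - z0‖ = ‖z - z0‖ := rfl
      calc ‖Φ.symm (h0 z : E) - p‖
          = ‖(Φ.symm (h0 z : E) - p - ((z : E) - z0)) + ((z : E) - z0)‖ := by congr 1; abel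
        _ ≤ ‖Φ.symm (h0 z : E) - p - ((z : E) - z0)‖ + ‖(z : E) - z0‖ := norm_add_le _ _
        _ ≤ δ / 2 * ‖z - z0‖ + ‖z - z0‖ := by rw [h5]; gcongr
        _ = (1 + δ / 2) * ‖z - z0‖ := by ring
        _ < (1 + δ / 2) * (r / (1 + δ / 2)) := by gcongr
        _ = r := by field_simp
  calc ENNReal.ofReal ((1 - δ) * (Real.pi * r ^ 2))
      ≤ ENNReal.ofReal (Real.pi * (r / (1 + δ / 2)) ^ 2) := by
        apply ENNReal.ofReal_le_ofReal
        rw [div_pow, mul_div_assoc', le_div_iff₀ (by positivity)]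
        have h6 : (1 - δ) * (1 + δ / 2) ^ 2 ≤ 1 := by nlinarith [sq_nonneg δ, pow_pos hδ 3]
        have h7 : 0 ≤ Real.pi * r ^ 2 := by positivity
        nlinarith
    _ = (μHE[2] : Measure T) (Metric.ball z0 (r / (1 + δ / 2))) := by
        rw [muHE_ball T hTrank z0 (by positivity)]
    _ ≤ (μHE[2] : Measure T) (P '' (M ∩ Metric.ball p r)) := measure_mono hsub
    _ ≤ ((1 : ℝ≥0) : ℝ≥0∞) ^ 2 * μHE[2] (M ∩ Metric.ball p r) :=
        muHE_image_le (T.lipschitzWith_orthogonalProjectionOnto.lipschitzOnWith) 2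
    _ = μHE[2] (M ∩ Metric.ball p r) := by simp

end Pool.Agent.Helper74.Iso
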