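import Mathlib

/-!
# The algebraic inequality behind the second vector field
-/

namespace Pool.Agent.Helper74.Iso

open RealInnerProductSpace

/-- real-number core: `c = ⟨z,N⟩`, `w = ⟨Pz,PN⟩`, `S = 1 - |Pz|²`, `Q = |PN|²` -/
lemma alg_core {c w S Q : ℝ} (hc1 : -1 ≤ c) (hc2 : c ≤ 1) (hS0 : 0 ≤ S) (hS1 : S ≤ 1)
    (hd : (c - w) ^ 2 ≤ S * (1 - Q)) (hw : w ^ 2 ≤ (1 - S) * Q) :
    c ≤ (67 / 250 + 183 / 250 * c) * (1 + S) + 183 / 250 * (w - c * (1 - S)) := by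
  -- `d = c - w`
  set d := c - w with hdd
  have hw' : w = c - d := by rw [hdd]; ring
  rw [hw'] at hw ⊢
  -- (d - S c)^2 ≤ S (1-S) (1-c^2)
  have h1 : (d - S * c) ^ 2 ≤ S * (1 - S) * (1 - c ^ 2) := by
    have h2 : S * (c - d) ^ 2 ≤ (1 - S) * (S - d ^ 2) := by
      have h3 : S * (c - d) ^ 2 ≤ S * ((1 - S) * Q) := mul_le_mul_of_nonneg_left hw hS0
      have h4 : S * Q ≤ S - d ^ 2 := by nlinarith
      have h5 : (1 - S) * (S * Q) ≤ (1 - S) * (S - d ^ 2) :=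
        mul_le_mul_of_nonneg_left h4 (by linarith)
      nlinarith
    nlinarith
  -- `X = (1-b)(1-c) + h S`
  set X := 67 / 250 * (1 - c) + (67 / 250 + 183 / 250 * c) * S with hX
  have hα : 0 ≤ 67 / 250 * (1 - c) := by linarith
  have hβ : 0 ≤ 134 / 250 + 116 / 250 * c := by linarith
  have hXeq : X = 67 / 250 * (1 - c) * (1 - S) + (134 / 250 + 116 / 250 * c) * S := by
    rw [hX]; ring
  have hX0 : 0 ≤ X := by
    rw [hXeq]
    have := mul_nonneg hα (by linarith : (0:ℝ) ≤ 1 - S)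
    have := mul_nonneg hβ hS0
    linarith
  have hX2 : (183 / 250) ^ 2 * (S * (1 - S) * (1 - c ^ 2)) ≤ X ^ 2 := by
    have h6 : 4 * (67 / 250 * (1 - c) * (1 - S)) * ((134 / 250 + 116 / 250 * c) * S) ≤ X ^ 2 := by
      rw [hXeq]
      nlinarith [sq_nonneg (67 / 250 * (1 - c) * (1 - S) - (134 / 250 + 116 / 250 * c) * S)]
    have h7 : (183 / 250) ^ 2 * (1 + c) ≤ 4 * (67 / 250) * (134 / 250 + 116 / 250 * c) := by
      nlinarith
    have h8 : 0 ≤ S * (1 - S) * (1 - c) := by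
      apply mul_nonneg (mul_nonneg hS0 (by linarith)) (by linarith)
    nlinarith [mul_le_mul_of_nonneg_left h7 h8]
  have h9 : ((183 / 250) * (d - S * c)) ^ 2 ≤ X ^ 2 := by
    calc ((183 / 250) * (d - S * c)) ^ 2 = (183 / 250) ^ 2 * (d - S * c) ^ 2 := by ring
      _ ≤ (183 / 250) ^ 2 * (S * (1 - S) * (1 - c ^ 2)) :=
          mul_le_mul_of_nonneg_left h1 (by norm_num)
      _ ≤ X ^ 2 := hX2
  have h10 : (183 / 250) * (d - S * c) ≤ X := by
    have := abs_le_of_sq_le_sq' h9 hX0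
    exact this.2
  rw [hX] at h10
  nlinarith

end Pool.Agent.Helper74.Iso
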