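import Mathlib
import Pool.Agent.Helper74.Iso.Alg
import Pool.Agent.Helper74.Iso.Defs

/-!
# The two vector fields and their divergence along 2-planes
-/

namespace Pool.Agent.Helper74.Iso

open RealInnerProductSpace InnerProductSpace

variable {E : Type*} [NormedAddCommGroup E] [InnerProductSpace ℝ E] [FiniteDimensional ℝ E]

lemma tdiv_eq (T : Submodule ℝ E) (A : E →L[ℝ] E) {ι : Type*} [Fintype ι]
    (e : OrthonormalBasis ι ℝ T) : tdiv T A = ∑ i, ⟪(e i : E), A (e i)⟫_ℝ := by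
  rw [tdiv, ContinuousLinearMap.toLinearMap_comp, LinearMap.trace_comp_comm',
    ← ContinuousLinearMap.toLinearMap_comp, e.starProjection_eq_sum_rankOne]
  rw [ContinuousLinearMap.comp_finsetSum]
  simp only [ContinuousLinearMap.toLinearMap_sum, map_sum]
  apply Finset.sum_congr rfl
  intro i _
  have : A ∘L (rankOne ℝ (e i : E) (e i : E)) = rankOne ℝ (A (e i)) (e i : E) := by
    ext v; simp
  rw [this, InnerProductSpace.trace_rankOne]

omit [FiniteDimensional ℝ E] in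
lemma plane_ineq (T : Submodule ℝ E) (e : OrthonormalBasis (Fin 2) ℝ T) {z N : E}
    (hz : ‖z‖ ≤ 1) (hN : ‖N‖ ≤ 1) :
    ⟪z, N⟫_ℝ ≤ (67 / 250 + 183 / 250 * ⟪z, N⟫_ℝ) *
        (2 - (⟪(e 0 : E), z⟫_ℝ ^ 2 + ⟪(e 1 : E), z⟫_ℝ ^ 2)) +
      183 / 250 * ((⟪(e 0 : E), z⟫_ℝ * ⟪(e 0 : E), N⟫_ℝ + ⟪(e 1 : E), z⟫_ℝ * ⟪(e 1 : E), N⟫_ℝ) -
        ⟪z, N⟫_ℝ * (⟪(e 0 : E), z⟫_ℝ ^ 2 + ⟪(e 1 : E), z⟫_ℝ ^ 2)) := by
  set e0 : E := (e 0 : E) with he0
  set e1 : E := (e 1 : E) with he1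
  have h00 : ⟪e0, e0⟫_ℝ = 1 := by
    have := e.orthonormal.1 0
    rw [real_inner_self_eq_norm_sq, he0]
    have h : ‖(e 0 : E)‖ = ‖e 0‖ := rfl
    rw [h, this]; norm_num
  have h11 : ⟪e1, e1⟫_ℝ = 1 := by
    have := e.orthonormal.1 1
    rw [real_inner_self_eq_norm_sq, he1]
    have h : ‖(e 1 : E)‖ = ‖e 1‖ := rfl
    rw [h, this]; norm_num
  have h01 : ⟪e0, e1⟫_ℝ = 0 := by
    have := e.orthonormal.2 (show (0 : Fin 2) ≠ 1 by decide)
    exact this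
  have h10 : ⟪e1, e0⟫_ℝ = 0 := by rw [real_inner_comm]; exact h01
  set a := ⟪e0, z⟫_ℝ with ha
  set b := ⟪e1, z⟫_ℝ with hb
  set a' := ⟪e0, N⟫_ℝ with ha'
  set b' := ⟪e1, N⟫_ℝ with hb'
  set c := ⟪z, N⟫_ℝ with hc
  have hza : ⟪z, e0⟫_ℝ = a := by rw [ha, real_inner_comm]
  have hzb : ⟪z, e1⟫_ℝ = b := by rw [hb, real_inner_comm]
  have hNa : ⟪N, e0⟫_ℝ = a' := by rw [ha', real_inner_comm]
  have hNb : ⟪N, e1⟫_ℝ = b' := by rw [hb', real_inner_comm]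
  have hz2 : ‖z‖ ^ 2 ≤ 1 := by
    have := norm_nonneg z; nlinarith
  have hN2 : ‖N‖ ^ 2 ≤ 1 := by
    have := norm_nonneg N; nlinarith
  -- perpendicular parts
  have hzp : ‖z - a • e0 - b • e1‖ ^ 2 = ‖z‖ ^ 2 - (a ^ 2 + b ^ 2) := by
    rw [← real_inner_self_eq_norm_sq, ← real_inner_self_eq_norm_sq]
    simp only [inner_sub_left, inner_sub_right, inner_smul_left, inner_smul_right, h00, h11, h01,
      h10, hza, hzb, RCLike.conj_to_real]
    rw [← ha, ← hb]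
    ring
  have hNp : ‖N - a' • e0 - b' • e1‖ ^ 2 = ‖N‖ ^ 2 - (a' ^ 2 + b' ^ 2) := by
    rw [← real_inner_self_eq_norm_sq, ← real_inner_self_eq_norm_sq]
    simp only [inner_sub_left, inner_sub_right, inner_smul_left, inner_smul_right, h00, h11, h01,
      h10, hNa, hNb, RCLike.conj_to_real]
    rw [← ha', ← hb']
    ring
  have hcp : ⟪z - a • e0 - b • e1, N - a' • e0 - b' • e1⟫_ℝ = c - (a * a' + b * b') := by
    simp only [inner_sub_left, inner_sub_right, inner_smul_left, inner_smul_right, h00, h11, h01,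
      h10, hza, hzb, RCLike.conj_to_real]
    rw [← ha', ← hb', ← hc]
    ring
  have hcs : (c - (a * a' + b * b')) ^ 2 ≤ (1 - (a ^ 2 + b ^ 2)) * (1 - (a' ^ 2 + b' ^ 2)) := by
    have h1 := abs_real_inner_le_norm (z - a • e0 - b • e1) (N - a' • e0 - b' • e1)
    rw [hcp] at h1
    have h2 : (c - (a * a' + b * b')) ^ 2 ≤
        (‖z - a • e0 - b • e1‖ * ‖N - a' • e0 - b' • e1‖) ^ 2 := by
      rw [← sq_abs (c - (a * a' + b * b'))]
      exact pow_le_pow_left₀ (abs_nonneg _) h1 2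
    rw [mul_pow, hzp, hNp] at h2
    have h3 : 0 ≤ ‖z‖ ^ 2 - (a ^ 2 + b ^ 2) := by rw [← hzp]; positivity
    have h4 : 0 ≤ ‖N‖ ^ 2 - (a' ^ 2 + b' ^ 2) := by rw [← hNp]; positivity
    calc (c - (a * a' + b * b')) ^ 2 ≤ _ := h2
      _ ≤ (1 - (a ^ 2 + b ^ 2)) * (1 - (a' ^ 2 + b' ^ 2)) := by
        apply mul_le_mul (by linarith) (by linarith) h4 (by linarith)
  have hpS : a ^ 2 + b ^ 2 ≤ 1 := by
    have : 0 ≤ ‖z‖ ^ 2 - (a ^ 2 + b ^ 2) := by rw [← hzp]; positivity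
    linarith
  have hcabs : |c| ≤ 1 := by
    have h1 := abs_real_inner_le_norm z N
    have : ‖z‖ * ‖N‖ ≤ 1 := by
      have := mul_le_mul hz hN (norm_nonneg _) (by norm_num : (0:ℝ) ≤ 1)
      linarith
    linarith
  have hw : (a * a' + b * b') ^ 2 ≤ (1 - (1 - (a ^ 2 + b ^ 2))) * (a' ^ 2 + b' ^ 2) := by
    nlinarith [sq_nonneg (a * b' - b * a')]
  have key := alg_core (c := c) (w := a * a' + b * b') (S := 1 - (a ^ 2 + b ^ 2))
    (Q := a' ^ 2 + b' ^ 2) (abs_le.mp hcabs).1 (abs_le.mp hcabs).2 (by linarith)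
    (by nlinarith [sq_nonneg a, sq_nonneg b]) hcs hw
  calc c ≤ _ := key
    _ = _ := by ring

/-- the first vector field -/
noncomputable def X1 (ε : ℝ) (y x : E) : E := (‖x - y‖ ^ 2 + ε ^ 2)⁻¹ • (x - y)

/-- smoothed unit vector from `x` to `y` -/
noncomputable def W (ε : ℝ) (x y : E) : E := (√(‖y - x‖ ^ 2 + ε ^ 2))⁻¹ • (y - x)

/-- the second vector field -/
noncomputable def Y1 (ε : ℝ) (x N y : E) : E :=
  (67 / 250 + 183 / 250 * ⟪W ε x y, N⟫_ℝ) • W ε x y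

omit [InnerProductSpace ℝ E] [FiniteDimensional ℝ E] in
lemma q_pos {ε : ℝ} (hε : 0 < ε) (z : E) : 0 < ‖z‖ ^ 2 + ε ^ 2 := by positivity

omit [FiniteDimensional ℝ E] in
lemma hasFDerivAt_q (ε : ℝ) (x y : E) :
    HasFDerivAt (fun y : E => ‖y - x‖ ^ 2 + ε ^ 2) ((2 : ℝ) • innerSL ℝ (y - x)) y := by
  have h1 : HasFDerivAt (fun y : E => y - x) (ContinuousLinearMap.id ℝ E) y :=
    (hasFDerivAt_id y).sub_const x
  have h2 := h1.norm_sq
  have h3 := h2.add_const (ε ^ 2)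
  refine h3.congr_fderiv ?_
  ext e
  simp

omit [FiniteDimensional ℝ E] in
lemma hasFDerivAt_X1 {ε : ℝ} (hε : 0 < ε) (y x : E) :
    HasFDerivAt (X1 ε y) ((‖x - y‖ ^ 2 + ε ^ 2)⁻¹ • ContinuousLinearMap.id ℝ E +
      ((-(‖x - y‖ ^ 2 + ε ^ 2)⁻¹ ^ 2) • ((2 : ℝ) • innerSL ℝ (x - y))).smulRight (x - y)) x := by
  have hq := hasFDerivAt_q ε y x
  have hne := (q_pos hε (x - y)).ne'
  have h1 : HasFDerivAt (fun x : E => x - y) (ContinuousLinearMap.id ℝ E) x :=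
    (hasFDerivAt_id x).sub_const y
  have h2 : HasFDerivAt (fun x : E => (‖x - y‖ ^ 2 + ε ^ 2)⁻¹)
      ((-(‖x - y‖ ^ 2 + ε ^ 2)⁻¹ ^ 2) • ((2 : ℝ) • innerSL ℝ (x - y))) x := by
    have := (hasDerivAt_inv hne).comp_hasFDerivAt x hq
    refine this.congr_fderiv ?_
    rw [inv_pow]
  have h3 := h2.smul h1
  exact h3

omit [FiniteDimensional ℝ E] in
lemma hasFDerivAt_W {ε : ℝ} (hε : 0 < ε) (x y : E) :
    HasFDerivAt (W ε x) ((√(‖y - x‖ ^ 2 + ε ^ 2))⁻¹ • ContinuousLinearMap.id ℝ E +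
      ((-(√(‖y - x‖ ^ 2 + ε ^ 2))⁻¹ ^ 3) • innerSL ℝ (y - x)).smulRight (y - x)) y := by
  have hq := hasFDerivAt_q ε x y
  have hpos := q_pos hε (y - x)
  have hne := hpos.ne'
  have h1 : HasFDerivAt (fun y : E => y - x) (ContinuousLinearMap.id ℝ E) y :=
    (hasFDerivAt_id y).sub_const x
  have h2 : HasFDerivAt (fun y : E => (√(‖y - x‖ ^ 2 + ε ^ 2))⁻¹)
      ((-(√(‖y - x‖ ^ 2 + ε ^ 2))⁻¹ ^ 3) • innerSL ℝ (y - x)) y := by
    have h4 : HasDerivAt (fun t : ℝ => (√t)⁻¹)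
        (-(1 / (2 * √(‖y - x‖ ^ 2 + ε ^ 2))) / (√(‖y - x‖ ^ 2 + ε ^ 2)) ^ 2)
        (‖y - x‖ ^ 2 + ε ^ 2) :=
      (Real.hasDerivAt_sqrt hne).inv (Real.sqrt_pos.mpr hpos).ne'
    have := h4.comp_hasFDerivAt y hq
    refine this.congr_fderiv ?_
    rw [smul_smul]
    congr 1
    have := (Real.sqrt_pos.mpr hpos).ne'
    field_simp
  have h3 := h2.smul h1
  exact h3

omit [FiniteDimensional ℝ E] in
lemma norm_W_le {ε : ℝ} (hε : 0 < ε) (x y : E) : ‖W ε x y‖ ≤ 1 := by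
  rw [W, norm_smul, norm_inv, Real.norm_of_nonneg (Real.sqrt_nonneg _),
    inv_mul_le_iff₀ (Real.sqrt_pos.mpr (q_pos hε _)), mul_one]
  apply Real.le_sqrt_of_sq_le
  nlinarith [sq_nonneg ε]

omit [FiniteDimensional ℝ E] in
lemma W_swap (ε : ℝ) (x y : E) : W ε y x = - W ε x y := by
  rw [W, W, norm_sub_rev, ← smul_neg, neg_sub]

omit [FiniteDimensional ℝ E] in
lemma contDiff_X1 {ε : ℝ} (hε : 0 < ε) (y : E) {n : WithTop ℕ∞} : ContDiff ℝ n (X1 ε y) := by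
  unfold X1
  apply ContDiff.smul
  · apply ContDiff.inv
    · exact ((contDiff_id.sub contDiff_const).norm_sq ℝ).add contDiff_const
    · intro x; exact (q_pos hε _).ne'
  · exact contDiff_id.sub contDiff_const

omit [FiniteDimensional ℝ E] in
lemma contDiff_W {ε : ℝ} (hε : 0 < ε) (x : E) {n : WithTop ℕ∞} : ContDiff ℝ n (W ε x) := by
  unfold W
  apply ContDiff.smul
  · apply ContDiff.inv
    · apply ContDiff.sqrt
      · exact ((contDiff_id.sub contDiff_const).norm_sq ℝ).add contDiff_const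
      · intro x; exact (q_pos hε _).ne'
    · intro x; exact (Real.sqrt_pos.mpr (q_pos hε _)).ne'
  · exact contDiff_id.sub contDiff_const

omit [FiniteDimensional ℝ E] in
lemma contDiff_Y1 {ε : ℝ} (hε : 0 < ε) (x N : E) {n : WithTop ℕ∞} :
    ContDiff ℝ n (Y1 ε x N) := by
  unfold Y1
  apply ContDiff.smul
  · exact contDiff_const.add (contDiff_const.mul ((contDiff_W hε x).inner ℝ contDiff_const))
  · exact contDiff_W hε x

omit [FiniteDimensional ℝ E] in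
lemma fderiv_X1_apply {ε : ℝ} (hε : 0 < ε) (y x e : E) :
    fderiv ℝ (X1 ε y) x e = (‖x - y‖ ^ 2 + ε ^ 2)⁻¹ • e -
      (2 * (‖x - y‖ ^ 2 + ε ^ 2)⁻¹ ^ 2 * ⟪x - y, e⟫_ℝ) • (x - y) := by
  rw [(hasFDerivAt_X1 hε y x).fderiv]
  simp only [neg_smul, add_apply, smul_apply,
    ContinuousLinearMap.id_apply, ContinuousLinearMap.smulRight_apply,
    neg_apply, innerSL_apply_apply, smul_eq_mul]
  rw [← sub_eq_add_neg]
  congr 2
  ring

omit [FiniteDimensional ℝ E] in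
lemma fderiv_W_apply {ε : ℝ} (hε : 0 < ε) (x y e : E) :
    fderiv ℝ (W ε x) y e = (√(‖y - x‖ ^ 2 + ε ^ 2))⁻¹ • (e - ⟪W ε x y, e⟫_ℝ • W ε x y) := by
  rw [(hasFDerivAt_W hε x y).fderiv]
  simp only [neg_smul, add_apply, smul_apply,
    ContinuousLinearMap.id_apply, ContinuousLinearMap.smulRight_apply,
    neg_apply, innerSL_apply_apply, smul_eq_mul]
  rw [W, inner_smul_left, RCLike.conj_to_real]
  module

omit [FiniteDimensional ℝ E] in
lemma fderiv_Y1_apply {ε : ℝ} (hε : 0 < ε) (x N y e : E) :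
    fderiv ℝ (Y1 ε x N) y e =
      (67 / 250 + 183 / 250 * ⟪W ε x y, N⟫_ℝ) • fderiv ℝ (W ε x) y e +
      (183 / 250 * ⟪fderiv ℝ (W ε x) y e, N⟫_ℝ) • W ε x y := by
  have hW : HasFDerivAt (W ε x) (fderiv ℝ (W ε x) y) y :=
    ((contDiff_W hε x (n := 1)).differentiable (by norm_num) y).hasFDerivAt
  have h1 : HasFDerivAt (fun y => ⟪W ε x y, N⟫_ℝ)
      ((fderivInnerCLM ℝ (W ε x y, N)).comp ((fderiv ℝ (W ε x) y).prod (0 : E →L[ℝ] E))) y :=
    hW.inner ℝ (hasFDerivAt_const N y)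
  have h2 := (h1.const_mul (183 / 250)).const_add (67 / 250)
  have h3 := h2.smul hW
  have h4 : fderiv ℝ (Y1 ε x N) y = _ := h3.fderiv
  rw [h4]
  simp

end Pool.Agent.Helper74.Iso
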