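import Mathlib
import Pool.Agent.Helper74.Iso.Fields

/-!
# Bounds for the divergence along 2-planes
-/

set_option linter.unusedSectionVars false

namespace Pool.Agent.Helper74.Iso

open RealInnerProductSpace InnerProductSpace Module

variable {E : Type*} [NormedAddCommGroup E] [InnerProductSpace ℝ E] [FiniteDimensional ℝ E]

/-- an orthonormal basis of a plane indexed by `Fin 2` -/
noncomputable def planeBasis (T : Submodule ℝ E) (hT : finrank ℝ T = 2) :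
    OrthonormalBasis (Fin 2) ℝ T :=
  (stdOrthonormalBasis ℝ T).reindex (finCongr hT)

lemma planeBasis_inner (T : Submodule ℝ E) (e : OrthonormalBasis (Fin 2) ℝ T) (i : Fin 2) :
    ⟪(e i : E), (e i : E)⟫_ℝ = 1 := by
  have := e.orthonormal.1 i
  rw [real_inner_self_eq_norm_sq]
  have h : ‖(e i : E)‖ = ‖e i‖ := rfl
  rw [h, this]; norm_num

lemma bessel (T : Submodule ℝ E) (e : OrthonormalBasis (Fin 2) ℝ T) (z : E) :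
    ⟪(e 0 : E), z⟫_ℝ ^ 2 + ⟪(e 1 : E), z⟫_ℝ ^ 2 ≤ ‖z‖ ^ 2 := by
  have ho : Orthonormal ℝ (fun i => (e i : E)) :=
    e.orthonormal.comp_linearIsometry T.subtypeₗᵢ
  have := ho.sum_inner_products_le (x := z) (s := Finset.univ)
  simpa [Fin.sum_univ_two] using this

lemma tdiv_X1_ge {ε : ℝ} (hε : 0 < ε) {T : Submodule ℝ E} (hT : finrank ℝ T = 2) (y x : E) :
    2 * ε ^ 2 / (‖x - y‖ ^ 2 + ε ^ 2) ^ 2 ≤ tdiv T (fderiv ℝ (X1 ε y) x) := by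
  set e := planeBasis T hT
  have hq := q_pos hε (x - y)
  rw [tdiv_eq T _ e, Fin.sum_univ_two, fderiv_X1_apply hε, fderiv_X1_apply hε]
  simp only [inner_sub_right, inner_smul_right]
  rw [planeBasis_inner T e 0, planeBasis_inner T e 1, ← inner_sub_right, ← inner_sub_right,
    real_inner_comm (e 0 : E) (x - y), real_inner_comm (e 1 : E) (x - y)]
  have hb := bessel T e (x - y)
  set a := ⟪(e 0 : E), x - y⟫_ℝ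
  set b := ⟪(e 1 : E), x - y⟫_ℝ
  set q := ‖x - y‖ ^ 2 + ε ^ 2 with hqdef
  have h1 : q⁻¹ * 1 - 2 * q⁻¹ ^ 2 * a * a + (q⁻¹ * 1 - 2 * q⁻¹ ^ 2 * b * b) =
      (2 * q - 2 * (a ^ 2 + b ^ 2)) / q ^ 2 := by
    field_simp
    ring
  rw [h1]
  apply div_le_div_of_nonneg_right _ (by positivity)
  rw [hqdef]
  linarith

lemma tdiv_Y1_ge {ε : ℝ} (hε : 0 < ε) {T : Submodule ℝ E} (hT : finrank ℝ T = 2) (x : E) {N : E}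
    (hN : ‖N‖ ≤ 1) (y : E) :
    ⟪y - x, N⟫_ℝ / (‖y - x‖ ^ 2 + ε ^ 2) ≤ tdiv T (fderiv ℝ (Y1 ε x N) y) := by
  set e := planeBasis T hT
  have hq := q_pos hε (y - x)
  have hR := Real.sqrt_pos.mpr hq
  rw [tdiv_eq T _ e, Fin.sum_univ_two, fderiv_Y1_apply hε, fderiv_Y1_apply hε,
    fderiv_W_apply hε, fderiv_W_apply hε]
  have key := plane_ineq T e (norm_W_le hε x y) hN
  have hlhs : ⟪y - x, N⟫_ℝ / (‖y - x‖ ^ 2 + ε ^ 2) =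
      (√(‖y - x‖ ^ 2 + ε ^ 2))⁻¹ * ⟪W ε x y, N⟫_ℝ := by
    rw [W, inner_smul_left, RCLike.conj_to_real]
    have h2 : √(‖y - x‖ ^ 2 + ε ^ 2) * √(‖y - x‖ ^ 2 + ε ^ 2) = ‖y - x‖ ^ 2 + ε ^ 2 :=
      Real.mul_self_sqrt hq.le
    rw [← mul_assoc, ← mul_inv, h2, div_eq_inv_mul]
  rw [hlhs]
  simp only [inner_add_right, inner_sub_right, inner_smul_right, inner_sub_left, inner_smul_left,
    RCLike.conj_to_real]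
  rw [planeBasis_inner T e 0, planeBasis_inner T e 1,
    real_inner_comm (e 0 : E) (W ε x y), real_inner_comm (e 1 : E) (W ε x y)]
  set r := (√(‖y - x‖ ^ 2 + ε ^ 2))⁻¹
  set a := ⟪(e 0 : E), W ε x y⟫_ℝ
  set b := ⟪(e 1 : E), W ε x y⟫_ℝ
  set a' := ⟪(e 0 : E), N⟫_ℝ
  set b' := ⟪(e 1 : E), N⟫_ℝ
  set c := ⟪W ε x y, N⟫_ℝ
  have hr : 0 < r := inv_pos.mpr hR
  have := mul_le_mul_of_nonneg_left key hr.le
  calc r * c ≤ _ := this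
    _ = _ := by ring

lemma abs_tdiv_le {T : Submodule ℝ E} (hT : finrank ℝ T = 2) (A : E →L[ℝ] E) :
    |tdiv T A| ≤ 2 * ‖A‖ := by
  set e := planeBasis T hT
  rw [tdiv_eq T _ e, Fin.sum_univ_two]
  have h : ∀ i, |⟪(e i : E), A (e i)⟫_ℝ| ≤ ‖A‖ := by
    intro i
    have hn : ‖(e i : E)‖ = 1 := by
      have := e.orthonormal.1 i
      exact this
    calc |⟪(e i : E), A (e i)⟫_ℝ| ≤ ‖(e i : E)‖ * ‖A (e i)‖ := abs_real_inner_le_norm _ _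
      _ ≤ 1 * (‖A‖ * 1) := by
        rw [hn]
        gcongr
        have := A.le_opNorm (e i : E)
        rwa [hn] at this
      _ = ‖A‖ := by ring
  calc |⟪(e 0 : E), A (e 0)⟫_ℝ + ⟪(e 1 : E), A (e 1)⟫_ℝ| ≤ _ := abs_add_le _ _
    _ ≤ ‖A‖ + ‖A‖ := add_le_add (h 0) (h 1)
    _ = 2 * ‖A‖ := by ring

lemma norm_fderiv_X1_le {ε : ℝ} (hε : 0 < ε) (y x : E) :
    ‖fderiv ℝ (X1 ε y) x‖ ≤ 3 / ε ^ 2 := by
  apply ContinuousLinearMap.opNorm_le_bound _ (by positivity)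
  intro e
  rw [fderiv_X1_apply hε]
  have hq := q_pos hε (x - y)
  set q := ‖x - y‖ ^ 2 + ε ^ 2 with hqdef
  have h1 : q⁻¹ ≤ 1 / ε ^ 2 := by
    rw [← one_div]
    apply one_div_le_one_div_of_le (by positivity)
    rw [hqdef]; nlinarith [sq_nonneg ‖x - y‖]
  have h2 : q⁻¹ * ‖x - y‖ ^ 2 ≤ 1 := by
    rw [inv_mul_le_iff₀ hq]; rw [hqdef]; nlinarith [sq_nonneg ε]
  have hq' : 0 < q⁻¹ := inv_pos.mpr hq
  calc ‖q⁻¹ • e - (2 * q⁻¹ ^ 2 * ⟪x - y, e⟫_ℝ) • (x - y)‖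
      ≤ ‖q⁻¹ • e‖ + ‖(2 * q⁻¹ ^ 2 * ⟪x - y, e⟫_ℝ) • (x - y)‖ := norm_sub_le _ _
    _ = q⁻¹ * ‖e‖ + 2 * q⁻¹ ^ 2 * |⟪x - y, e⟫_ℝ| * ‖x - y‖ := by
      rw [norm_smul, norm_smul, Real.norm_of_nonneg hq'.le, Real.norm_eq_abs, abs_mul,
        abs_of_pos (by positivity : (0:ℝ) < 2 * q⁻¹ ^ 2)]
    _ ≤ q⁻¹ * ‖e‖ + 2 * q⁻¹ ^ 2 * (‖x - y‖ * ‖e‖) * ‖x - y‖ := by
      gcongr
      exact abs_real_inner_le_norm _ _
    _ = q⁻¹ * ‖e‖ + 2 * q⁻¹ * ‖e‖ * (q⁻¹ * ‖x - y‖ ^ 2) := by ring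
    _ ≤ q⁻¹ * ‖e‖ + 2 * q⁻¹ * ‖e‖ * 1 := by gcongr
    _ = 3 * ‖e‖ * q⁻¹ := by ring
    _ ≤ 3 * ‖e‖ * (1 / ε ^ 2) := by gcongr
    _ = 3 / ε ^ 2 * ‖e‖ := by ring

lemma norm_fderiv_W_le {ε : ℝ} (hε : 0 < ε) (x y : E) :
    ‖fderiv ℝ (W ε x) y‖ ≤ 2 / ε := by
  apply ContinuousLinearMap.opNorm_le_bound _ (by positivity)
  intro e
  rw [fderiv_W_apply hε]
  have hq := q_pos hε (y - x)
  have hR := Real.sqrt_pos.mpr hq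
  have hRε : ε ≤ √(‖y - x‖ ^ 2 + ε ^ 2) := by
    apply Real.le_sqrt_of_sq_le
    nlinarith [sq_nonneg ‖y - x‖]
  have h1 : (√(‖y - x‖ ^ 2 + ε ^ 2))⁻¹ ≤ 1 / ε := by
    rw [← one_div]
    exact one_div_le_one_div_of_le hε hRε
  have hW := norm_W_le hε x y
  have h2 : ‖e - ⟪W ε x y, e⟫_ℝ • W ε x y‖ ≤ 2 * ‖e‖ := by
    calc ‖e - ⟪W ε x y, e⟫_ℝ • W ε x y‖ ≤ ‖e‖ + ‖⟪W ε x y, e⟫_ℝ • W ε x y‖ := norm_sub_le _ _
      _ = ‖e‖ + |⟪W ε x y, e⟫_ℝ| * ‖W ε x y‖ := by rw [norm_smul, Real.norm_eq_abs]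
      _ ≤ ‖e‖ + (‖W ε x y‖ * ‖e‖) * ‖W ε x y‖ := by
        gcongr
        exact abs_real_inner_le_norm _ _
      _ ≤ ‖e‖ + (1 * ‖e‖) * 1 := by gcongr
      _ = 2 * ‖e‖ := by ring
  calc ‖(√(‖y - x‖ ^ 2 + ε ^ 2))⁻¹ • (e - ⟪W ε x y, e⟫_ℝ • W ε x y)‖
      = (√(‖y - x‖ ^ 2 + ε ^ 2))⁻¹ * ‖e - ⟪W ε x y, e⟫_ℝ • W ε x y‖ := by
        rw [norm_smul, Real.norm_of_nonneg (inv_pos.mpr hR).le]
    _ ≤ 1 / ε * (2 * ‖e‖) := by gcongr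
    _ = 2 / ε * ‖e‖ := by ring

lemma norm_fderiv_Y1_le {ε : ℝ} (hε : 0 < ε) (x : E) {N : E} (hN : ‖N‖ ≤ 1) (y : E) :
    ‖fderiv ℝ (Y1 ε x N) y‖ ≤ 4 / ε := by
  apply ContinuousLinearMap.opNorm_le_bound _ (by positivity)
  intro e
  rw [fderiv_Y1_apply hε]
  have hD : ‖fderiv ℝ (W ε x) y e‖ ≤ 2 / ε * ‖e‖ :=
    le_trans (ContinuousLinearMap.le_opNorm _ _) (by gcongr; exact norm_fderiv_W_le hε x y)
  have hW := norm_W_le hε x y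
  have hc : |⟪W ε x y, N⟫_ℝ| ≤ 1 := by
    calc |⟪W ε x y, N⟫_ℝ| ≤ ‖W ε x y‖ * ‖N‖ := abs_real_inner_le_norm _ _
      _ ≤ 1 * 1 := by gcongr
      _ = 1 := by ring
  have h1 : |67 / 250 + 183 / 250 * ⟪W ε x y, N⟫_ℝ| ≤ 1 := by
    rw [abs_le] at hc ⊢
    constructor <;> linarith [hc.1, hc.2]
  have h2 : |⟪fderiv ℝ (W ε x) y e, N⟫_ℝ| ≤ 2 / ε * ‖e‖ := by
    calc |⟪fderiv ℝ (W ε x) y e, N⟫_ℝ| ≤ ‖fderiv ℝ (W ε x) y e‖ * ‖N‖ :=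
          abs_real_inner_le_norm _ _
      _ ≤ (2 / ε * ‖e‖) * 1 := by gcongr
      _ = 2 / ε * ‖e‖ := by ring
  calc ‖(67 / 250 + 183 / 250 * ⟪W ε x y, N⟫_ℝ) • fderiv ℝ (W ε x) y e +
      (183 / 250 * ⟪fderiv ℝ (W ε x) y e, N⟫_ℝ) • W ε x y‖
      ≤ ‖(67 / 250 + 183 / 250 * ⟪W ε x y, N⟫_ℝ) • fderiv ℝ (W ε x) y e‖ +
        ‖(183 / 250 * ⟪fderiv ℝ (W ε x) y e, N⟫_ℝ) • W ε x y‖ := norm_add_le _ _
    _ = |67 / 250 + 183 / 250 * ⟪W ε x y, N⟫_ℝ| * ‖fderiv ℝ (W ε x) y e‖ +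
        183 / 250 * |⟪fderiv ℝ (W ε x) y e, N⟫_ℝ| * ‖W ε x y‖ := by
      rw [norm_smul, norm_smul, Real.norm_eq_abs, Real.norm_eq_abs, abs_mul,
        abs_of_pos (by norm_num : (0:ℝ) < 183 / 250)]
    _ ≤ 1 * (2 / ε * ‖e‖) + 183 / 250 * (2 / ε * ‖e‖) * 1 := by gcongr
    _ ≤ 4 / ε * ‖e‖ := by
      have : 0 ≤ 2 / ε * ‖e‖ := by positivity
      have h5 : 4 / ε * ‖e‖ = 2 * (2 / ε * ‖e‖) := by ring
      rw [h5]; nlinarith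

end Pool.Agent.Helper74.Iso
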