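import Mathlib
import Pool.Agent.Helper74.Iso.Divs

/-!
# The two-point inequality at scale `ε`
-/

set_option linter.unusedSectionVars false

namespace Pool.Agent.Helper74.Iso

open RealInnerProductSpace InnerProductSpace Module MeasureTheory
open scoped ContDiff

variable {E : Type*} [NormedAddCommGroup E] [InnerProductSpace ℝ E] [FiniteDimensional ℝ E]
  [MeasurableSpace E] [BorelSpace E]

/-- measurability of the divergence -/
lemma aesm_tdiv {V : Measure E} {T : E → Submodule ℝ E}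
    (hTm : AEStronglyMeasurable (fun x => (T x).starProjection) V) {A : E → (E →L[ℝ] E)}
    (hA : Continuous A) : AEStronglyMeasurable (fun x => tdiv (T x) (A x)) V := by
  have hc : Continuous (fun p : (E →L[ℝ] E) × (E →L[ℝ] E) =>
      LinearMap.trace ℝ E ((p.1 ∘L p.2 : E →L[ℝ] E) : E →ₗ[ℝ] E)) := by
    have h1 : Continuous (fun p : (E →L[ℝ] E) × (E →L[ℝ] E) => p.1 ∘L p.2) :=
      continuous_fst.clm_comp continuous_snd
    have h2 : Continuous (fun B : E →L[ℝ] E => LinearMap.trace ℝ E (B : E →ₗ[ℝ] E)) := by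
      exact LinearMap.continuous_of_finiteDimensional
        ((LinearMap.trace ℝ E).comp (ContinuousLinearMap.coeLM ℝ : (E →L[ℝ] E) →ₗ[ℝ] (E →ₗ[ℝ] E)))
    exact h2.comp h1
  have h3 : AEStronglyMeasurable (fun x => ((T x).starProjection, A x)) V :=
    hTm.prodMk hA.aestronglyMeasurable
  exact hc.comp_aestronglyMeasurable h3

lemma integrable_tdiv {V : Measure E} [IsFiniteMeasure V] {T : E → Submodule ℝ E}
    (hT : ∀ᵐ x ∂V, finrank ℝ (T x) = 2)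
    (hTm : AEStronglyMeasurable (fun x => (T x).starProjection) V) {A : E → (E →L[ℝ] E)}
    (hA : Continuous A) {C : ℝ} (hC : ∀ x, ‖A x‖ ≤ C) :
    Integrable (fun x => tdiv (T x) (A x)) V := by
  refine Integrable.of_bound (aesm_tdiv hTm hA) (2 * C) ?_
  filter_upwards [hT] with x hx
  rw [Real.norm_eq_abs]
  exact le_trans (abs_tdiv_le hx _) (by have := hC x; linarith)

/-- first step: monotonicity inequality at a point `y` -/
lemma step1 {V S : Measure E} [IsFiniteMeasure V] [IsFiniteMeasure S] {T : E → Submodule ℝ E}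
    {ν : E → E} (hT : ∀ᵐ x ∂V, finrank ℝ (T x) = 2)
    (hTm : AEStronglyMeasurable (fun x => (T x).starProjection) V)
    (hvar : ∀ X : E → E, ContDiff ℝ ∞ X →
      ∫ x, tdiv (T x) (fderiv ℝ X x) ∂V = ∫ x, ⟪X x, ν x⟫_ℝ ∂S)
    {ε : ℝ} (hε : 0 < ε) (y : E) :
    ∫ x, 2 * ε ^ 2 / (‖x - y‖ ^ 2 + ε ^ 2) ^ 2 ∂V ≤ ∫ x, ⟪X1 ε y x, ν x⟫_ℝ ∂S := by
  rw [← hvar (X1 ε y) (contDiff_X1 hε y)]
  have hcont : Continuous (fderiv ℝ (X1 ε y)) :=
    (contDiff_X1 hε y (n := 1)).continuous_fderiv (by norm_num)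
  apply integral_mono_ae
  · refine Integrable.of_bound (C := 2 / ε ^ 2) ?_ ?_
    · apply Continuous.aestronglyMeasurable
      apply Continuous.div continuous_const (by fun_prop)
      intro x; have := q_pos hε (x - y); positivity
    · filter_upwards with x
      have hq := q_pos hε (x - y)
      rw [Real.norm_of_nonneg (by positivity), div_le_div_iff₀ (by positivity) (by positivity)]
      nlinarith [sq_nonneg ‖x - y‖, mul_nonneg (sq_nonneg ‖x - y‖) (sq_nonneg ε),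
        sq_nonneg (‖x - y‖ ^ 2)]
  · exact integrable_tdiv hT hTm hcont (norm_fderiv_X1_le hε y)
  · filter_upwards [hT] with x hx
    exact tdiv_X1_ge hε hx y x

/-- second step: the field `Y1` -/
lemma step3 {V S : Measure E} [IsFiniteMeasure V] [IsFiniteMeasure S] {T : E → Submodule ℝ E}
    {ν : E → E} (hT : ∀ᵐ x ∂V, finrank ℝ (T x) = 2)
    (hTm : AEStronglyMeasurable (fun x => (T x).starProjection) V)
    (hvar : ∀ X : E → E, ContDiff ℝ ∞ X →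
      ∫ x, tdiv (T x) (fderiv ℝ X x) ∂V = ∫ x, ⟪X x, ν x⟫_ℝ ∂S)
    {ε : ℝ} (hε : 0 < ε) (x : E) {N : E} (hN : ‖N‖ ≤ 1) :
    ∫ y, ⟪y - x, N⟫_ℝ / (‖y - x‖ ^ 2 + ε ^ 2) ∂V ≤ ∫ y, ⟪Y1 ε x N y, ν y⟫_ℝ ∂S := by
  rw [← hvar (Y1 ε x N) (contDiff_Y1 hε x N)]
  have hcont : Continuous (fderiv ℝ (Y1 ε x N)) :=
    (contDiff_Y1 hε x N (n := 1)).continuous_fderiv (by norm_num)
  apply integral_mono_ae
  · refine Integrable.of_bound (C := 1 / ε) ?_ ?_
    · apply Continuous.aestronglyMeasurable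
      apply Continuous.div (by fun_prop) (by fun_prop)
      intro y; exact (q_pos hε (y - x)).ne'
    · filter_upwards with y
      have hq := q_pos hε (y - x)
      rw [norm_div, Real.norm_eq_abs, Real.norm_of_nonneg hq.le,
        div_le_div_iff₀ (by positivity) (by positivity)]
      have h1 : |⟪y - x, N⟫_ℝ| ≤ ‖y - x‖ := by
        calc |⟪y - x, N⟫_ℝ| ≤ ‖y - x‖ * ‖N‖ := abs_real_inner_le_norm _ _
          _ ≤ ‖y - x‖ * 1 := by gcongr
          _ = ‖y - x‖ := by ring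
      have h2 := norm_nonneg (y - x)
      nlinarith [sq_nonneg (‖y - x‖ - ε)]
  · exact integrable_tdiv hT hTm hcont (norm_fderiv_Y1_le hε x hN)
  · filter_upwards [hT] with y hy
    exact tdiv_Y1_ge hε hy x hN y

lemma continuous_X1_joint {ε : ℝ} (hε : 0 < ε) : Continuous (fun p : E × E => X1 ε p.1 p.2) := by
  unfold X1
  apply Continuous.smul
  · apply Continuous.inv₀ (by fun_prop)
    intro p; exact (q_pos hε _).ne'
  · fun_prop

lemma continuous_W_joint {ε : ℝ} (hε : 0 < ε) : Continuous (fun p : E × E => W ε p.1 p.2) := by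
  unfold W
  apply Continuous.smul
  · apply Continuous.inv₀ (by fun_prop)
    intro p; exact (Real.sqrt_pos.mpr (q_pos hε _)).ne'
  · fun_prop

lemma norm_X1_le {ε : ℝ} (hε : 0 < ε) (y x : E) : ‖X1 ε y x‖ ≤ 1 / ε := by
  have hq := q_pos hε (x - y)
  rw [X1, norm_smul, norm_inv, Real.norm_of_nonneg hq.le, inv_mul_le_iff₀ hq, mul_one_div,
    le_div_iff₀ hε]
  nlinarith [sq_nonneg (‖x - y‖ - ε), norm_nonneg (x - y)]

/-- the pairing of the field `Y1` with the boundary -/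
noncomputable def G (ε : ℝ) (ν : E → E) (x y : E) : ℝ :=
  (67 / 250 - 183 / 250 * ⟪W ε x y, ν x⟫_ℝ) * ⟪W ε x y, ν y⟫_ℝ

lemma G_eq (ε : ℝ) (ν : E → E) (x y : E) : ⟪Y1 ε x (-ν x) y, ν y⟫_ℝ = G ε ν x y := by
  rw [Y1, inner_smul_left, RCLike.conj_to_real, G, inner_neg_right]
  ring

lemma abs_inner_W_le {ε : ℝ} (hε : 0 < ε) (x y : E) {N : E} (hN : ‖N‖ ≤ 1) :
    |⟪W ε x y, N⟫_ℝ| ≤ 1 := by
  calc |⟪W ε x y, N⟫_ℝ| ≤ ‖W ε x y‖ * ‖N‖ := abs_real_inner_le_norm _ _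
    _ ≤ 1 * 1 := by gcongr; exact norm_W_le hε x y
    _ = 1 := by ring

lemma abs_G_le {ε : ℝ} (hε : 0 < ε) {ν : E → E} {x y : E} (hx : ‖ν x‖ ≤ 1) (hy : ‖ν y‖ ≤ 1) :
    |G ε ν x y| ≤ 1 := by
  rw [G, abs_mul]
  have h1 := abs_inner_W_le hε x y hx
  have h2 := abs_inner_W_le hε x y hy
  have h3 : |67 / 250 - 183 / 250 * ⟪W ε x y, ν x⟫_ℝ| ≤ 1 := by
    rw [abs_le] at h1 ⊢
    constructor <;> linarith [h1.1, h1.2]
  calc _ ≤ (1:ℝ) * 1 := by gcongr
    _ = 1 := by ring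

/-- pointwise bound of the symmetrised pairing -/
lemma G_symm_le {ε : ℝ} (hε : 0 < ε) {ν : E → E} {x y : E} (hx : ‖ν x‖ ≤ 1) (hy : ‖ν y‖ ≤ 1) :
    G ε ν x y + G ε ν y x ≤ 11110164 / 10 ^ 7 -
      (67 / 250 * (2 * (35356 / 10 ^ 5)) + 183 / 250) * ⟪ν x, ν y⟫_ℝ := by
  rw [G, G, W_swap ε x y, inner_neg_left, inner_neg_left]
  set α := ⟪W ε x y, ν x⟫_ℝ with hα
  set β := ⟪W ε x y, ν y⟫_ℝ with hβ
  have hs : (β - α) ^ 2 ≤ 2 - 2 * ⟪ν x, ν y⟫_ℝ := by
    have h1 : β - α = ⟪W ε x y, ν y - ν x⟫_ℝ := by rw [hα, hβ, inner_sub_right]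
    have h2 : |⟪W ε x y, ν y - ν x⟫_ℝ| ≤ ‖ν y - ν x‖ := by
      calc |⟪W ε x y, ν y - ν x⟫_ℝ| ≤ ‖W ε x y‖ * ‖ν y - ν x‖ := abs_real_inner_le_norm _ _
        _ ≤ 1 * ‖ν y - ν x‖ := by gcongr; exact norm_W_le hε x y
        _ = ‖ν y - ν x‖ := by ring
    have h3 : ‖ν y - ν x‖ ^ 2 = ‖ν y‖ ^ 2 - 2 * ⟪ν y, ν x⟫_ℝ + ‖ν x‖ ^ 2 := norm_sub_sq_real _ _
    have h4 : (β - α) ^ 2 ≤ ‖ν y - ν x‖ ^ 2 := by
      rw [h1, ← sq_abs]
      exact pow_le_pow_left₀ (abs_nonneg _) h2 2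
    rw [h3, real_inner_comm] at h4
    have h5 : ‖ν y‖ ^ 2 ≤ 1 := by nlinarith [norm_nonneg (ν y)]
    have h6 : ‖ν x‖ ^ 2 ≤ 1 := by nlinarith [norm_nonneg (ν x)]
    linarith
  set γ := ⟪ν x, ν y⟫_ℝ with hγ
  have h7 : -(2 * (α * β)) ≤ (β - α) ^ 2 / 2 := by nlinarith [sq_nonneg (β + α)]
  have h8 : β - α ≤ 35356 / 10 ^ 5 * ((β - α) ^ 2 + 2) := by
    nlinarith [sq_nonneg ((β - α) - 14142 / 10 ^ 4)]
  nlinarith

/-- integrability of `G` on the product -/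
lemma integrable_G {S : Measure E} [IsFiniteMeasure S] {ν : E → E} (hν : ∀ᵐ x ∂S, ‖ν x‖ ≤ 1)
    (hνm : AEStronglyMeasurable ν S) {ε : ℝ} (hε : 0 < ε) :
    Integrable (Function.uncurry (G ε ν)) (S.prod S) := by
  have hW : AEStronglyMeasurable (fun p : E × E => W ε p.1 p.2) (S.prod S) :=
    (continuous_W_joint hε).aestronglyMeasurable
  refine Integrable.of_bound (C := 1) ?_ ?_
  · unfold Function.uncurry G
    apply AEStronglyMeasurable.mul
    · apply AEStronglyMeasurable.sub aestronglyMeasurable_const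
      apply AEStronglyMeasurable.const_mul
      exact hW.inner hνm.comp_fst
    · exact hW.inner hνm.comp_snd
  · have h1 : ∀ᵐ p : E × E ∂(S.prod S), ‖ν p.1‖ ≤ 1 := by
      exact Measure.quasiMeasurePreserving_fst.ae hν
    have h2 : ∀ᵐ p : E × E ∂(S.prod S), ‖ν p.2‖ ≤ 1 := by
      exact Measure.quasiMeasurePreserving_snd.ae hν
    filter_upwards [h1, h2] with p hp1 hp2
    exact abs_G_le hε hp1 hp2

/-- integral bound for the pairing -/
lemma step4 {S : Measure E} [IsFiniteMeasure S] {ν : E → E} (hν : ∀ᵐ x ∂S, ‖ν x‖ ≤ 1)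
    (hνm : AEStronglyMeasurable ν S) {ε : ℝ} (hε : 0 < ε) :
    ∫ x, ∫ y, G ε ν x y ∂S ∂S ≤ 5555082 / 10 ^ 7 * (S.real Set.univ) ^ 2 := by
  have hG := integrable_G hν hνm hε
  have hνi : Integrable ν S := Integrable.of_bound hνm 1 hν
  have hsw : ∫ x, ∫ y, G ε ν x y ∂S ∂S = ∫ x, ∫ y, G ε ν y x ∂S ∂S := by
    rw [integral_integral_swap hG]
  have hG' : Integrable (Function.uncurry (fun x y => G ε ν y x)) (S.prod S) := hG.swap
  have hip : Integrable (fun p : E × E => ⟪ν p.1, ν p.2⟫_ℝ) (S.prod S) := by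
    refine Integrable.of_bound (C := 1) (hνm.comp_fst.inner hνm.comp_snd) ?_
    have h1 : ∀ᵐ p : E × E ∂(S.prod S), ‖ν p.1‖ ≤ 1 := by
      exact Measure.quasiMeasurePreserving_fst.ae hν
    have h2 : ∀ᵐ p : E × E ∂(S.prod S), ‖ν p.2‖ ≤ 1 := by
      exact Measure.quasiMeasurePreserving_snd.ae hν
    filter_upwards [h1, h2] with p hp1 hp2
    calc ‖⟪ν p.1, ν p.2⟫_ℝ‖ ≤ ‖ν p.1‖ * ‖ν p.2‖ := norm_inner_le_norm _ _
      _ ≤ 1 * 1 := by gcongr
      _ = 1 := by ring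
  have h3 : 0 ≤ ∫ p : E × E, ⟪ν p.1, ν p.2⟫_ℝ ∂(S.prod S) := by
    rw [integral_prod _ hip]
    have h4 : ∀ x, ∫ y, ⟪ν x, ν y⟫_ℝ ∂S = ⟪ν x, ∫ y, ν y ∂S⟫_ℝ := by
      intro x
      exact integral_inner (𝕜 := ℝ) hνi (ν x)
    simp only [h4]
    have h5 : ∫ x, ⟪ν x, ∫ y, ν y ∂S⟫_ℝ ∂S = ⟪∫ x, ν x ∂S, ∫ y, ν y ∂S⟫_ℝ := by
      have := integral_inner (𝕜 := ℝ) hνi (∫ y, ν y ∂S)
      rw [real_inner_comm, ← this]
      congr 1
      funext x
      rw [real_inner_comm]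
    rw [h5]
    exact real_inner_self_nonneg
  have h6 : 2 * ∫ x, ∫ y, G ε ν x y ∂S ∂S = ∫ p : E × E, (G ε ν p.1 p.2 + G ε ν p.2 p.1)
      ∂(S.prod S) := by
    have h6a : ∫ p : E × E, (G ε ν p.1 p.2 + G ε ν p.2 p.1) ∂(S.prod S) =
        ∫ p, Function.uncurry (G ε ν) p ∂(S.prod S) +
          ∫ p, Function.uncurry (fun x y => G ε ν y x) p ∂(S.prod S) := integral_add hG hG'
    rw [h6a, two_mul]
    nth_rw 2 [hsw]
    congr 1
    · exact (integral_prod _ hG).symm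
    · exact (integral_prod _ hG').symm
  have h7 : ∫ p : E × E, (G ε ν p.1 p.2 + G ε ν p.2 p.1) ∂(S.prod S) ≤
      ∫ p : E × E, (11110164 / 10 ^ 7 -
      (67 / 250 * (2 * (35356 / 10 ^ 5)) + 183 / 250) * ⟪ν p.1, ν p.2⟫_ℝ) ∂(S.prod S) := by
    apply integral_mono_ae (hG.add hG')
    · exact (integrable_const _).sub (hip.const_mul _)
    · have h1 : ∀ᵐ p : E × E ∂(S.prod S), ‖ν p.1‖ ≤ 1 := by
        exact Measure.quasiMeasurePreserving_fst.ae hν
      have h2 : ∀ᵐ p : E × E ∂(S.prod S), ‖ν p.2‖ ≤ 1 := by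
        exact Measure.quasiMeasurePreserving_snd.ae hν
      filter_upwards [h1, h2] with p hp1 hp2
      exact G_symm_le hε hp1 hp2
  rw [integral_sub (integrable_const _) (hip.const_mul _), integral_const_mul, integral_const]
    at h7
  have h8 : (S.prod S).real Set.univ = (S.real Set.univ) ^ 2 := by
    rw [measureReal_def, ← Set.univ_prod_univ, Measure.prod_prod, ENNReal.toReal_mul, sq]
    rfl
  rw [h8, smul_eq_mul] at h7
  nlinarith

end Pool.Agent.Helper74.Iso
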