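import Mathlib
import Pool.Agent.Helper74.Iso.Core

/-!
# The inequality at scale `ε` and the limit `ε → 0`
-/

set_option linter.unusedSectionVars false

namespace Pool.Agent.Helper74.Iso

open RealInnerProductSpace InnerProductSpace Module MeasureTheory
open scoped ContDiff

variable {E : Type*} [NormedAddCommGroup E] [InnerProductSpace ℝ E] [FiniteDimensional ℝ E]
  [MeasurableSpace E] [BorelSpace E]

/-- the kernel -/
noncomputable def ker (ε : ℝ) (x y : E) : ℝ := 2 * ε ^ 2 / (‖x - y‖ ^ 2 + ε ^ 2) ^ 2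

lemma ker_nonneg (ε : ℝ) (x y : E) : 0 ≤ ker ε x y := by
  unfold ker; positivity

lemma continuous_ker {ε : ℝ} (hε : 0 < ε) : Continuous (fun p : E × E => ker ε p.1 p.2) := by
  unfold ker
  apply Continuous.div continuous_const (by fun_prop)
  intro p; have := q_pos hε (p.1 - p.2); positivity

lemma ker_le {ε : ℝ} (hε : 0 < ε) (x y : E) : ker ε x y ≤ 2 / ε ^ 2 := by
  have hq := q_pos hε (x - y)
  rw [ker, div_le_div_iff₀ (by positivity) (by positivity)]
  nlinarith [sq_nonneg ‖x - y‖, mul_nonneg (sq_nonneg ‖x - y‖) (sq_nonneg ε),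
    sq_nonneg (‖x - y‖ ^ 2)]

lemma integrable_ker {V : Measure E} [IsFiniteMeasure V] {ε : ℝ} (hε : 0 < ε) :
    Integrable (fun p : E × E => ker ε p.1 p.2) (V.prod V) := by
  refine Integrable.of_bound (C := 2 / ε ^ 2) (continuous_ker hε).aestronglyMeasurable ?_
  filter_upwards with p
  rw [Real.norm_of_nonneg (ker_nonneg _ _ _)]
  exact ker_le hε _ _

lemma scale_ineq {V S : Measure E} [IsFiniteMeasure V] [IsFiniteMeasure S]
    {T : E → Submodule ℝ E} {ν : E → E} (hT : ∀ᵐ x ∂V, finrank ℝ (T x) = 2)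
    (hTm : AEStronglyMeasurable (fun x => (T x).starProjection) V)
    (hν : ∀ᵐ x ∂S, ‖ν x‖ ≤ 1) (hνm : AEStronglyMeasurable ν S)
    (hvar : ∀ X : E → E, ContDiff ℝ ∞ X →
      ∫ x, tdiv (T x) (fderiv ℝ X x) ∂V = ∫ x, ⟪X x, ν x⟫_ℝ ∂S)
    {ε : ℝ} (hε : 0 < ε) :
    ∫ y, ∫ x, ker ε x y ∂V ∂V ≤ 5555082 / 10 ^ 7 * (S.real Set.univ) ^ 2 := by
  have hF : Integrable (Function.uncurry (fun y x => ⟪X1 ε y x, ν x⟫_ℝ)) (V.prod S) := by
    refine Integrable.of_bound (C := 1 / ε) ?_ ?_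
    · unfold Function.uncurry
      exact ((continuous_X1_joint hε).aestronglyMeasurable).inner hνm.comp_snd
    · have h2 : ∀ᵐ p : E × E ∂(V.prod S), ‖ν p.2‖ ≤ 1 := by
        exact Measure.quasiMeasurePreserving_snd.ae hν
      filter_upwards [h2] with p hp2
      calc ‖⟪X1 ε p.1 p.2, ν p.2⟫_ℝ‖ ≤ ‖X1 ε p.1 p.2‖ * ‖ν p.2‖ := norm_inner_le_norm _ _
        _ ≤ 1 / ε * 1 := by gcongr; exact norm_X1_le hε _ _
        _ = 1 / ε := by ring
  have hk : Integrable (fun y => ∫ x, ker ε x y ∂V) V := by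
    have := (integrable_ker (V := V) hε).swap
    exact this.integral_prod_left
  calc ∫ y, ∫ x, ker ε x y ∂V ∂V ≤ ∫ y, ∫ x, ⟪X1 ε y x, ν x⟫_ℝ ∂S ∂V := by
        apply integral_mono hk hF.integral_prod_left
        intro y
        exact step1 hT hTm hvar hε y
    _ = ∫ x, ∫ y, ⟪X1 ε y x, ν x⟫_ℝ ∂V ∂S := integral_integral_swap hF
    _ ≤ ∫ x, ∫ y, G ε ν x y ∂S ∂S := by
        apply integral_mono_ae hF.integral_prod_right (integrable_G hν hνm hε).integral_prod_left
        filter_upwards [hν] with x hx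
        have h1 := step3 hT hTm hvar hε x (N := -ν x) (by rwa [norm_neg])
        have h2 : ∫ y, ⟪X1 ε y x, ν x⟫_ℝ ∂V =
            ∫ y, ⟪y - x, -ν x⟫_ℝ / (‖y - x‖ ^ 2 + ε ^ 2) ∂V := by
          congr 1
          funext y
          rw [X1, inner_smul_left, RCLike.conj_to_real, inner_neg_right, ← inner_neg_left,
            neg_sub, norm_sub_rev, inv_mul_eq_div]
        have h3 : ∫ y, ⟪Y1 ε x (-ν x) y, ν y⟫_ℝ ∂S = ∫ y, G ε ν x y ∂S := by
          congr 1
          funext y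
          exact G_eq ε ν x y
        simp only [Function.uncurry]
        rw [h2, ← h3]
        exact h1
    _ ≤ _ := step4 hν hνm hε

end Pool.Agent.Helper74.Iso
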