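import Mathlib
import Pool.Agent.Helper74.Iso.Scale

/-!
# Passing to the limit with the density lower bound
-/

set_option linter.unusedSectionVars false

namespace Pool.Agent.Helper74.Iso

open RealInnerProductSpace InnerProductSpace Module MeasureTheory Set Filter Topology
open scoped ContDiff ENNReal

variable {E : Type*} [NormedAddCommGroup E] [InnerProductSpace ℝ E] [FiniteDimensional ℝ E]
  [MeasurableSpace E] [BorelSpace E]

/-- the derivative density -/
noncomputable def gg (ε s : ℝ) : ℝ := 8 * ε ^ 2 * s / (s ^ 2 + ε ^ 2) ^ 3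

lemma gg_nonneg {ε s : ℝ} (hs : 0 ≤ s) : 0 ≤ gg ε s := by
  unfold gg
  exact div_nonneg (mul_nonneg (by positivity) hs) (by positivity)

lemma continuous_gg {ε : ℝ} (hε : 0 < ε) : Continuous (gg ε) := by
  unfold gg
  apply Continuous.div (by fun_prop) (by fun_prop)
  intro s; positivity

lemma hasDerivAt_f {ε : ℝ} (hε : 0 < ε) (s : ℝ) :
    HasDerivAt (fun s : ℝ => -(2 * ε ^ 2 / (s ^ 2 + ε ^ 2) ^ 2)) (gg ε s) s := by
  have hq : 0 < s ^ 2 + ε ^ 2 := by positivity
  have h1 : HasDerivAt (fun s : ℝ => s ^ 2 + ε ^ 2) (2 * s) s := by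
    simpa using (hasDerivAt_pow 2 s).add_const (ε ^ 2)
  have h2 : HasDerivAt (fun s : ℝ => (s ^ 2 + ε ^ 2) ^ 2) (2 * (s ^ 2 + ε ^ 2) * (2 * s)) s := by
    simpa using h1.fun_pow 2
  have h3 := (h2.fun_inv (by positivity)).const_mul (2 * ε ^ 2)
  have h4 := h3.fun_neg
  refine HasDerivAt.congr_deriv (f := fun s : ℝ => -(2 * ε ^ 2 / (s ^ 2 + ε ^ 2) ^ 2)) h4 ?_
  simp only [gg]
  field_simp
  norm_num
  ring

lemma hasDerivAt_F {ε : ℝ} (hε : 0 < ε) (s : ℝ) :
    HasDerivAt (fun s : ℝ => 2 * s ^ 4 / (s ^ 2 + ε ^ 2) ^ 2) (s ^ 2 * gg ε s) s := by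
  have hq : 0 < s ^ 2 + ε ^ 2 := by positivity
  have h1 : HasDerivAt (fun s : ℝ => s ^ 2 + ε ^ 2) (2 * s) s := by
    simpa using (hasDerivAt_pow 2 s).add_const (ε ^ 2)
  have h2 : HasDerivAt (fun s : ℝ => (s ^ 2 + ε ^ 2) ^ 2) (2 * (s ^ 2 + ε ^ 2) * (2 * s)) s := by
    simpa using h1.fun_pow 2
  have h5 : HasDerivAt (fun s : ℝ => 2 * s ^ 4) (2 * (4 * s ^ 3)) s := by
    simpa using (hasDerivAt_pow 4 s).const_mul 2
  have h3 := h5.fun_div h2 (by positivity)
  refine HasDerivAt.congr_deriv h3 ?_
  simp only [gg]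
  field_simp
  ring

lemma lower_bound {V : Measure E} [IsFiniteMeasure V] {ε : ℝ} (hε : 0 < ε) {δ r₀ : ℝ}
    (hδ : δ ≤ 1) (hr₀ : 0 < r₀) (y : E)
    (h : ∀ r ∈ Ioo 0 r₀, ENNReal.ofReal ((1 - δ) * (Real.pi * r ^ 2)) ≤ V (Metric.ball y r)) :
    ENNReal.ofReal ((1 - δ) * Real.pi * (2 * r₀ ^ 4 / (r₀ ^ 2 + ε ^ 2) ^ 2)) ≤
      ∫⁻ x, ENNReal.ofReal (ker ε x y) ∂V := by
  -- pointwise
  have h1 : ∀ x, ∫⁻ s in Ioo 0 r₀, (if ‖x - y‖ < s then ENNReal.ofReal (gg ε s) else 0) ≤
      ENNReal.ofReal (ker ε x y) := by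
    intro x
    by_cases hx : ‖x - y‖ < r₀
    · have h2 : ∫⁻ s in Ioo 0 r₀, (if ‖x - y‖ < s then ENNReal.ofReal (gg ε s) else 0) ≤
          ∫⁻ s in Ioc ‖x - y‖ r₀, ENNReal.ofReal (gg ε s) := by
        rw [← lintegral_indicator measurableSet_Ioo, ← lintegral_indicator measurableSet_Ioc]
        apply lintegral_mono
        intro s
        simp only [indicator]
        split_ifs with h3 h4 h5 h6
        · exact le_rfl
        · exact absurd ⟨h4, h3.2.le⟩ h5
        · exact zero_le
        · exact le_rfl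
        · exact zero_le
        · exact le_rfl
      refine le_trans h2 ?_
      have hint : IntegrableOn (gg ε) (Ioc ‖x - y‖ r₀) :=
        ((continuous_gg hε).integrableOn_Icc).mono_set Ioc_subset_Icc_self
      rw [← ofReal_integral_eq_lintegral_ofReal hint]
      · apply ENNReal.ofReal_le_ofReal
        rw [← intervalIntegral.integral_of_le hx.le,
          intervalIntegral.integral_eq_sub_of_hasDerivAt (fun s _ => hasDerivAt_f hε s)
          ((continuous_gg hε).intervalIntegrable _ _)]
        have : 0 ≤ 2 * ε ^ 2 / (r₀ ^ 2 + ε ^ 2) ^ 2 := by positivity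
        rw [ker]
        linarith
      · filter_upwards [ae_restrict_mem measurableSet_Ioc] with s hs
        exact gg_nonneg (le_trans (norm_nonneg _) hs.1.le)
    · have h2 : ∫⁻ s in Ioo 0 r₀, (if ‖x - y‖ < s then ENNReal.ofReal (gg ε s) else 0) = 0 := by
        rw [← lintegral_indicator measurableSet_Ioo]
        have : (Ioo 0 r₀).indicator (fun s => if ‖x - y‖ < s then ENNReal.ofReal (gg ε s) else 0) =
            fun _ => 0 := by
          funext s
          simp only [indicator]
          split_ifs with h3 h4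
          · exact absurd (lt_trans h4 h3.2) hx
          · rfl
          · rfl
        rw [this]; simp
      rw [h2]; exact zero_le
  refine le_trans ?_ (lintegral_mono h1)
  rw [lintegral_lintegral_swap]
  · have h2 : ∀ s, ∫⁻ x, (if ‖x - y‖ < s then ENNReal.ofReal (gg ε s) else 0) ∂V =
        ENNReal.ofReal (gg ε s) * V (Metric.ball y s) := by
      intro s
      have : (fun x => if ‖x - y‖ < s then ENNReal.ofReal (gg ε s) else 0) =
          (Metric.ball y s).indicator (fun _ => ENNReal.ofReal (gg ε s)) := by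
        funext x
        simp only [indicator, Metric.mem_ball, dist_eq_norm]
      rw [this, lintegral_indicator Metric.isOpen_ball.measurableSet, lintegral_const,
        Measure.restrict_apply_univ]
    simp only [h2]
    have h3 : ∫⁻ s in Ioo 0 r₀, ENNReal.ofReal ((1 - δ) * Real.pi * (s ^ 2 * gg ε s)) ≤
        ∫⁻ s in Ioo 0 r₀, ENNReal.ofReal (gg ε s) * V (Metric.ball y s) := by
      apply setLIntegral_mono' measurableSet_Ioo
      intro s hs
      have h4 := h s hs
      calc ENNReal.ofReal ((1 - δ) * Real.pi * (s ^ 2 * gg ε s))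
          = ENNReal.ofReal (gg ε s) * ENNReal.ofReal ((1 - δ) * (Real.pi * s ^ 2)) := by
            rw [← ENNReal.ofReal_mul (gg_nonneg hs.1.le)]
            congr 1; ring
        _ ≤ _ := by gcongr
    refine le_trans ?_ h3
    have hcont : Continuous (fun s => (1 - δ) * Real.pi * (s ^ 2 * gg ε s)) :=
      continuous_const.mul ((continuous_pow 2).mul (continuous_gg hε))
    have hint : IntegrableOn (fun s => (1 - δ) * Real.pi * (s ^ 2 * gg ε s)) (Ioo 0 r₀) :=
      (hcont.integrableOn_Icc).mono_set Ioo_subset_Icc_self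
    rw [← ofReal_integral_eq_lintegral_ofReal hint]
    · apply ENNReal.ofReal_le_ofReal
      rw [← integral_Ioc_eq_integral_Ioo, ← intervalIntegral.integral_of_le hr₀.le,
        intervalIntegral.integral_const_mul,
        intervalIntegral.integral_eq_sub_of_hasDerivAt (fun s _ => hasDerivAt_F hε s)
          (((continuous_pow 2).mul (continuous_gg hε)).intervalIntegrable _ _)]
      simp
    · filter_upwards [ae_restrict_mem measurableSet_Ioo] with s hs
      have := gg_nonneg (ε := ε) hs.1.le
      have h5 : 0 ≤ 1 - δ := by linarith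
      have := Real.pi_pos
      positivity
  · apply Measurable.aemeasurable
    unfold Function.uncurry
    apply Measurable.ite
    · apply measurableSet_lt
      · fun_prop
      · exact measurable_snd
    · exact ENNReal.measurable_ofReal.comp ((continuous_gg hε).measurable.comp measurable_snd)
    · exact measurable_const

end Pool.Agent.Helper74.Iso
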