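import Mathlib
import Pool.Agent.Helper74.Iso.Density

/-!
# The isoperimetric inequality for stationary measures with density at least one
-/

set_option linter.unusedSectionVars false

namespace Pool.Agent.Helper74.Iso

open RealInnerProductSpace InnerProductSpace Module MeasureTheory Set Filter Topology
open scoped ContDiff ENNReal

variable {E : Type*} [NormedAddCommGroup E] [InnerProductSpace ℝ E] [FiniteDimensional ℝ E]
  [MeasurableSpace E] [BorelSpace E]

lemma tendsto_const_seq {δ r₀ : ℝ} (hr₀ : 0 < r₀) :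
    Tendsto (fun k : ℕ => (1 - δ) * Real.pi * (2 * r₀ ^ 4 / (r₀ ^ 2 + (1 / ((k : ℝ) + 1)) ^ 2) ^ 2))
      atTop (𝓝 ((1 - δ) * Real.pi * 2)) := by
  have h0 : Tendsto (fun k : ℕ => 1 / ((k : ℝ) + 1)) atTop (𝓝 0) :=
    tendsto_one_div_add_atTop_nhds_zero_nat
  have hc : ContinuousAt (fun e : ℝ => (1 - δ) * Real.pi * (2 * r₀ ^ 4 / (r₀ ^ 2 + e ^ 2) ^ 2)) 0 := by
    apply ContinuousAt.mul continuousAt_const
    apply ContinuousAt.div continuousAt_const (by fun_prop)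
    positivity
  have h1 := hc.tendsto.comp h0
  have h2 : (1 - δ) * Real.pi * (2 * r₀ ^ 4 / (r₀ ^ 2 + (0:ℝ) ^ 2) ^ 2) = (1 - δ) * Real.pi * 2 := by
    have : r₀ ≠ 0 := hr₀.ne'
    field_simp
    ring
  rw [← h2]
  exact h1

lemma liminf_ge {V : Measure E} [IsFiniteMeasure V] (y : E)
    (h : ∀ δ : ℝ, 0 < δ → δ < 1 → ∀ᶠ r in 𝓝[>] (0 : ℝ),
      ENNReal.ofReal ((1 - δ) * (Real.pi * r ^ 2)) ≤ V (Metric.ball y r)) :
    ENNReal.ofReal (2 * Real.pi) ≤
      liminf (fun k : ℕ => ∫⁻ x, ENNReal.ofReal (ker (1 / ((k : ℝ) + 1)) x y) ∂V) atTop := by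
  have key : ∀ δ : ℝ, 0 < δ → δ < 1 → ENNReal.ofReal ((1 - δ) * Real.pi * 2) ≤
      liminf (fun k : ℕ => ∫⁻ x, ENNReal.ofReal (ker (1 / ((k : ℝ) + 1)) x y) ∂V) atTop := by
    intro δ hδ hδ1
    obtain ⟨r₀, hr₀, hr⟩ := (mem_nhdsGT_iff_exists_Ioo_subset).1 (h δ hδ hδ1)
    have hr₀' : 0 < r₀ := hr₀
    have h3 : ∀ r ∈ Ioo 0 r₀, ENNReal.ofReal ((1 - δ) * (Real.pi * r ^ 2)) ≤
        V (Metric.ball y r) := fun r hrr => hr hrr
    have h6 : Tendsto (fun k : ℕ => ENNReal.ofReal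
        ((1 - δ) * Real.pi * (2 * r₀ ^ 4 / (r₀ ^ 2 + (1 / ((k : ℝ) + 1)) ^ 2) ^ 2)))
        atTop (𝓝 (ENNReal.ofReal ((1 - δ) * Real.pi * 2))) :=
      ENNReal.tendsto_ofReal (tendsto_const_seq hr₀')
    rw [← h6.liminf_eq]
    refine liminf_le_liminf (Eventually.of_forall fun k => ?_)
    exact lower_bound (by positivity) hδ1.le hr₀' y h3
  refine le_of_tendsto_of_tendsto (f := fun k : ℕ => ENNReal.ofReal ((1 - 1 / ((k : ℝ) + 1 + 1)) * Real.pi * 2))
    (g := fun _ => liminf (fun k : ℕ => ∫⁻ x, ENNReal.ofReal (ker (1 / ((k : ℝ) + 1)) x y) ∂V) atTop)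
    (b := atTop) ?_ tendsto_const_nhds ?_
  · apply ENNReal.tendsto_ofReal
    have h0 : Tendsto (fun k : ℕ => 1 / ((k : ℝ) + 1 + 1)) atTop (𝓝 0) := by
      have := (tendsto_add_atTop_iff_nat 1).2 (tendsto_one_div_add_atTop_nhds_zero_nat (𝕜 := ℝ))
      simpa using this
    have h1 : Tendsto (fun k : ℕ => (1 - 1 / ((k : ℝ) + 1 + 1)) * Real.pi * 2) atTop
        (𝓝 ((1 - 0) * Real.pi * 2)) := ((tendsto_const_nhds.sub h0).mul_const _).mul_const _
    convert h1 using 2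
    ring
  · filter_upwards with k
    apply key
    · positivity
    · rw [div_lt_one (by positivity)]
      have : (0:ℝ) ≤ k := Nat.cast_nonneg k
      linarith

theorem main {V S : Measure E} [IsFiniteMeasure V] [IsFiniteMeasure S]
    {T : E → Submodule ℝ E} {ν : E → E} (hT : ∀ᵐ x ∂V, finrank ℝ (T x) = 2)
    (hTm : AEStronglyMeasurable (fun x => (T x).starProjection) V)
    (hν : ∀ᵐ x ∂S, ‖ν x‖ ≤ 1) (hνm : AEStronglyMeasurable ν S)
    (hdens : ∀ᵐ y ∂V, ∀ δ : ℝ, 0 < δ → δ < 1 → ∀ᶠ r in 𝓝[>] (0 : ℝ),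
      ENNReal.ofReal ((1 - δ) * (Real.pi * r ^ 2)) ≤ V (Metric.ball y r))
    (hvar : ∀ X : E → E, ContDiff ℝ ∞ X →
      ∫ x, tdiv (T x) (fderiv ℝ X x) ∂V = ∫ x, ⟪X x, ν x⟫_ℝ ∂S) :
    18 / 5 * Real.pi * V.real univ ≤ (S.real univ) ^ 2 := by
  have h1 : ∀ k : ℕ, ∫⁻ y, ∫⁻ x, ENNReal.ofReal (ker (1 / ((k : ℝ) + 1)) x y) ∂V ∂V ≤
      ENNReal.ofReal (5555082 / 10 ^ 7 * (S.real univ) ^ 2) := by
    intro k
    have hε : 0 < 1 / ((k : ℝ) + 1) := by positivity
    have hi := integrable_ker (V := V) hε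
    have hi' : Integrable (fun p : E × E => ker (1 / ((k : ℝ) + 1)) p.2 p.1) (V.prod V) := hi.swap
    have h2 : ∀ᵐ y ∂V, ∫⁻ x, ENNReal.ofReal (ker (1 / ((k : ℝ) + 1)) x y) ∂V =
        ENNReal.ofReal (∫ x, ker (1 / ((k : ℝ) + 1)) x y ∂V) := by
      filter_upwards [hi'.prod_right_ae] with y hy
      rw [ofReal_integral_eq_lintegral_ofReal hy]
      filter_upwards with x using ker_nonneg _ _ _
    rw [lintegral_congr_ae h2, ← ofReal_integral_eq_lintegral_ofReal hi'.integral_prod_left]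
    · exact ENNReal.ofReal_le_ofReal (scale_ineq hT hTm hν hνm hvar hε)
    · filter_upwards with y
      exact integral_nonneg fun x => ker_nonneg _ _ _
  have h3 : ENNReal.ofReal (2 * Real.pi) * V univ ≤
      ENNReal.ofReal (5555082 / 10 ^ 7 * (S.real univ) ^ 2) := by
    calc ENNReal.ofReal (2 * Real.pi) * V univ = ∫⁻ _, ENNReal.ofReal (2 * Real.pi) ∂V := by
          rw [lintegral_const]
      _ ≤ ∫⁻ y, liminf (fun k : ℕ => ∫⁻ x, ENNReal.ofReal (ker (1 / ((k : ℝ) + 1)) x y) ∂V) atTop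
            ∂V := by
          apply lintegral_mono_ae
          filter_upwards [hdens] with y hy
          exact liminf_ge y hy
      _ ≤ liminf (fun k : ℕ => ∫⁻ y, ∫⁻ x, ENNReal.ofReal (ker (1 / ((k : ℝ) + 1)) x y) ∂V ∂V)
            atTop := by
          apply lintegral_liminf_le'
          intro k
          have hε : 0 < 1 / ((k : ℝ) + 1) := by positivity
          apply AEMeasurable.lintegral_prod_right'
            (f := fun p : E × E => ENNReal.ofReal (ker (1 / ((k : ℝ) + 1)) p.2 p.1))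
          exact (ENNReal.measurable_ofReal.comp
            ((continuous_ker hε).comp continuous_swap).measurable).aemeasurable
      _ ≤ _ := by
          refine le_trans (liminf_le_liminf (Eventually.of_forall h1)) ?_
          simp
  have h4 : ENNReal.ofReal (2 * Real.pi) * V univ = ENNReal.ofReal (2 * Real.pi * V.real univ) := by
    rw [ENNReal.ofReal_mul (p := 2 * Real.pi) (by positivity), Measure.real,
      ENNReal.ofReal_toReal (measure_ne_top _ _)]
  rw [h4, ENNReal.ofReal_le_ofReal_iff (by positivity)] at h3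
  nlinarith [sq_nonneg (S.real univ)]

end Pool.Agent.Helper74.Iso
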