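import Mathlib
import Pool.Agent.Helper74.Iso.Limit
import Pool.Agent.Helper74.Iso.Area

/-!
# The isoperimetric inequality for compact stationary surfaces
-/

set_option linter.unusedSectionVars false

namespace Pool.Agent.Helper74.Iso

open InnerProductSpace Module MeasureTheory Set Filter Topology
open scoped ContDiff ENNReal NNReal

variable {E : Type*} [NormedAddCommGroup E] [InnerProductSpace ℝ E] [FiniteDimensional ℝ E]
  [MeasurableSpace E] [BorelSpace E]

lemma area_lt_top {M B : Set E} (h : IsCompactSurfaceWithBoundary M B) : μHE[2] M < ⊤ := by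
  apply h.isCompact.measure_lt_top_of_nhdsWithin
  intro p hp
  by_cases hpB : p ∈ B
  · obtain ⟨Φ, K, e, h1, h2, hpS, hK, -, -, hM, -⟩ := h.boundary_point p hpB
    obtain ⟨U, hU, hfin⟩ := finite_near (M := M) h2 hK (fun x hx hxM => ((hM x hx).1 hxM).1) hpS
    exact ⟨M ∩ U, inter_mem_nhdsWithin M hU, hfin⟩
  · obtain ⟨Φ, K, h1, h2, hpS, hK, hM⟩ := h.interior_point p ⟨hp, hpB⟩
    obtain ⟨U, hU, hfin⟩ := finite_near (M := M) h2 hK (fun x hx hxM => (hM x hx).1 hxM) hpS
    exact ⟨M ∩ U, inter_mem_nhdsWithin M hU, hfin⟩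

theorem surface_main {M B : Set E} (h : IsCompactSurfaceWithBoundary M B) {η : E → E}
    (hη : AEStronglyMeasurable η (μHE[1].restrict B))
    (hη1 : ∀ᵐ x ∂(μHE[1].restrict B), ‖η x‖ ≤ 1)
    (hvar : ∀ X : E → E, ContDiff ℝ ∞ X →
      ∫ x in M, tdiv (tangentPlane M x) (fderiv ℝ X x) ∂μHE[2] = ∫ x in B, ⟪X x, η x⟫_ℝ ∂μHE[1]) :
    ENNReal.ofReal (18 / 5 * Real.pi) * μHE[2] M ≤ (μHE[1] B) ^ 2 := by
  by_cases hB : μHE[1] B = ⊤
  · rw [hB]; simp
  have hB2 : μHE[2] B = 0 := by
    rcases Measure.euclideanHausdorffMeasure_zero_or_top (show 1 < 2 by norm_num) B with h0 | h0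
    · exact h0
    · exact absurd h0 hB
  have hM : μHE[2] M < ⊤ := area_lt_top h
  have : IsFiniteMeasure (μHE[2].restrict M) := ⟨by simpa using hM⟩
  have : IsFiniteMeasure (μHE[1].restrict B) := ⟨by simpa using lt_top_iff_ne_top.2 hB⟩
  have hMm : MeasurableSet M := h.isCompact.measurableSet
  have hBm : MeasurableSet B := h.isClosed_boundary.measurableSet
  have hae : ∀ᵐ x ∂(μHE[2].restrict M), x ∈ M \ B := by
    rw [ae_restrict_iff' hMm]
    have : ∀ᵐ x ∂(μHE[2] : Measure E), x ∉ B := measure_eq_zero_iff_ae_notMem.1 hB2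
    filter_upwards [this] with x hx hxM
    exact ⟨hxM, hx⟩
  have hres : μHE[2].restrict M = μHE[2].restrict (M \ B) := by
    apply Measure.restrict_congr_set
    exact (sdiff_ae_eq_self.2 (measure_mono_null inter_subset_right hB2)).symm
  have key := main (V := μHE[2].restrict M) (S := μHE[1].restrict B) (T := tangentPlane M)
    (ν := η) ?_ ?_ hη1 hη ?_ hvar
  · have h1 : (μHE[2].restrict M).real univ = (μHE[2] M).toReal := by simp [Measure.real]
    have h2 : (μHE[1].restrict B).real univ = (μHE[1] B).toReal := by simp [Measure.real]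
    rw [h1, h2] at key
    have h3 : μHE[2] M = ENNReal.ofReal (μHE[2] M).toReal := (ENNReal.ofReal_toReal hM.ne).symm
    have h4 : μHE[1] B = ENNReal.ofReal (μHE[1] B).toReal := (ENNReal.ofReal_toReal hB).symm
    rw [h3, h4, ← ENNReal.ofReal_mul (by positivity), ← ENNReal.ofReal_pow ENNReal.toReal_nonneg]
    exact ENNReal.ofReal_le_ofReal key
  · filter_upwards [hae] with x hx
    obtain ⟨Φ, K, h1, h2, hpS, hK, hMK⟩ := h.interior_point x hx
    rw [finrank_tangentPlane h1 h2 hMK hpS hx.1, hK]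
  · rw [hres]
    apply ContinuousOn.aestronglyMeasurable _ (hMm.diff hBm)
    intro p hp
    obtain ⟨Φ, K, h1, h2, hpS, hK, hMK⟩ := h.interior_point p hp
    exact (continuousWithinAt_proj h1 h2 hMK hpS hp.1).mono sdiff_subset
  · filter_upwards [hae] with x hx δ hδ hδ1
    obtain ⟨Φ, K, h1, h2, hpS, hK, hMK⟩ := h.interior_point x hx
    filter_upwards [density_ge h1 h2 hK hMK hpS hx.1 hδ hδ1] with r hr
    rwa [Measure.restrict_apply Metric.isOpen_ball.measurableSet, inter_comm]

end Pool.Agent.Helper74.Iso
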